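import Pool.Agent.TH629.EqDeg.Diag

set_option autoImplicit false

open MvPolynomial

namespace TH629.EqDeg

section PS

variable {n : ℕ}

/-- the ideal generated by the variables -/
noncomputable abbrev mhat (n : ℕ) : Ideal (MvPowerSeries (Fin n) ℂ) :=
  Ideal.span (Set.range MvPowerSeries.X)

/-- order at least `M` -/
def VV (M : ℕ) (a : MvPowerSeries (Fin n) ℂ) : Prop :=
  ∀ e : Fin n →₀ ℕ, e.degree < M → MvPowerSeries.coeff e a = 0

lemma VV.mul_right {M : ℕ} {a : MvPowerSeries (Fin n) ℂ} (h : VV M a)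
    (b : MvPowerSeries (Fin n) ℂ) : VV M (a * b) := by
  classical
  intro e he
  rw [MvPowerSeries.coeff_mul]
  refine Finset.sum_eq_zero fun x hx => ?_
  rw [Finset.HasAntidiagonal.mem_antidiagonal] at hx
  have h1 : x.1.degree < M := by
    have h2 : x.1.degree + x.2.degree = e.degree := by rw [← map_add, hx]
    omega
  rw [h _ h1, zero_mul]

lemma VV.sum {ι : Type*} (s : Finset ι) {M : ℕ} {a : ι → MvPowerSeries (Fin n) ℂ}
    (h : ∀ i ∈ s, VV M (a i)) : VV M (∑ i ∈ s, a i) := by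
  intro e he
  rw [map_sum]
  exact Finset.sum_eq_zero fun i hi => h i hi e he

lemma mem_mhat_pow (M : ℕ) (a : MvPowerSeries (Fin n) ℂ) (h : VV M a) : a ∈ mhat n ^ M := by
  classical
  induction M generalizing a with
  | zero => rw [pow_zero, Ideal.one_eq_top]; exact Submodule.mem_top
  | succ M ih =>
    set b : Fin n → MvPowerSeries (Fin n) ℂ := fun i e =>
      if (∀ j < i, e j = 0) then MvPowerSeries.coeff (e + Finsupp.single i 1) a else 0 with hb
    have hbc : ∀ i e, MvPowerSeries.coeff e (b i) =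
        if (∀ j < i, e j = 0) then MvPowerSeries.coeff (e + Finsupp.single i 1) a else 0 :=
      fun i e => rfl
    have hsum : a = ∑ i, MvPowerSeries.X i * b i := by
      ext e
      rw [map_sum]
      have hterm : ∀ i, MvPowerSeries.coeff e (MvPowerSeries.X i * b i) =
          if (e i ≠ 0 ∧ ∀ j < i, e j = 0) then MvPowerSeries.coeff e a else 0 := by
        intro i
        rw [MvPowerSeries.X_def, MvPowerSeries.coeff_monomial_mul, one_mul, hbc]
        by_cases h1 : e i ≠ 0
        · have h2 : Finsupp.single i 1 ≤ e := by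
            rw [Finsupp.single_le_iff]; omega
          rw [if_pos h2]
          have h3 : e - Finsupp.single i 1 + Finsupp.single i 1 = e := tsub_add_cancel_of_le h2
          rw [h3]
          have h4 : (∀ j < i, (e - Finsupp.single i 1 : Fin n →₀ ℕ) j = 0) ↔ (e i ≠ 0 ∧ ∀ j < i, e j = 0) := by
            constructor
            · intro h5
              refine ⟨h1, fun j hj => ?_⟩
              have := h5 j hj
              rw [Finsupp.tsub_apply, Finsupp.single_eq_of_ne (by exact ne_of_lt hj)] at this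
              simpa using this
            · rintro ⟨_, h5⟩ j hj
              rw [Finsupp.tsub_apply, h5 j hj]
              simp
          simp only [h4]
        · have h2 : ¬ Finsupp.single i 1 ≤ e := by
            rw [Finsupp.single_le_iff]; omega
          rw [if_neg h2, if_neg (fun h3 => h1 h3.1)]
      simp only [hterm]
      by_cases he : e = 0
      · have : MvPowerSeries.coeff e a = 0 := h e (by rw [he]; simp)
        rw [this]
        simp
      · have hex : ∃ i, e i ≠ 0 := by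
          by_contra hcon
          push Not at hcon
          exact he (Finsupp.ext hcon)
        obtain ⟨i0, hi0, hmin⟩ : ∃ i0, e i0 ≠ 0 ∧ ∀ j < i0, e j = 0 := by
          have hne : (Finset.univ.filter fun i => e i ≠ 0).Nonempty := by
            obtain ⟨i, hi⟩ := hex
            exact ⟨i, by simpa using hi⟩
          refine ⟨(Finset.univ.filter fun i => e i ≠ 0).min' hne, ?_, ?_⟩
          · have := Finset.min'_mem _ hne
            exact (Finset.mem_filter.mp this).2
          · intro j hj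
            by_contra hcon
            have := Finset.min'_le (Finset.univ.filter fun i => e i ≠ 0) j (by simpa using hcon)
            exact absurd hj (not_lt.mpr this)
        rw [Finset.sum_eq_single i0]
        · rw [if_pos ⟨hi0, hmin⟩]
        · intro i _ hi
          rw [if_neg]
          rintro ⟨h1, h2⟩
          rcases lt_trichotomy i i0 with h3 | h3 | h3
          · exact h1 (hmin i h3)
          · exact hi h3
          · exact hi0 (h2 i0 h3)
        · intro h1; exact absurd (Finset.mem_univ _) h1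
    rw [hsum]
    refine Ideal.sum_mem _ fun i _ => ?_
    rw [pow_succ']
    refine Ideal.mul_mem_mul (Ideal.subset_span ⟨i, rfl⟩) (ih (b i) ?_)
    intro e he
    rw [hbc]
    split_ifs
    · apply h
      rw [map_add, Finsupp.degree_single]
      omega
    · rfl

lemma exists_pow_le (J : Ideal (MvPowerSeries (Fin n) ℂ))
    (hfin : Module.Finite ℂ (MvPowerSeries (Fin n) ℂ ⧸ J)) : ∃ M, mhat n ^ M ≤ J := by
  by_cases hJ : J = ⊤
  · exact ⟨0, by rw [hJ]; exact le_top⟩
  have : Nontrivial (MvPowerSeries (Fin n) ℂ ⧸ J) := Ideal.Quotient.nontrivial_iff.mpr hJ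
  have : IsLocalRing (MvPowerSeries (Fin n) ℂ ⧸ J) :=
    IsLocalRing.of_surjective' (Ideal.Quotient.mk J) Ideal.Quotient.mk_surjective
  have : IsArtinianRing (MvPowerSeries (Fin n) ℂ ⧸ J) := IsArtinianRing.of_finite ℂ _
  obtain ⟨M, hM⟩ := IsArtinianRing.isNilpotent_nilradical (R := MvPowerSeries (Fin n) ℂ ⧸ J)
  rw [Ring.KrullDimLE.nilradical_eq_maximalIdeal] at hM
  refine ⟨M, ?_⟩
  have h1 : Ideal.map (Ideal.Quotient.mk J) (mhat n) ≤ IsLocalRing.maximalIdeal _ := by
    rw [Ideal.map_span, Ideal.span_le]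
    rintro _ ⟨_, ⟨i, rfl⟩, rfl⟩
    change Ideal.Quotient.mk J (MvPowerSeries.X i) ∈ IsLocalRing.maximalIdeal _
    rw [IsLocalRing.mem_maximalIdeal, mem_nonunits_iff]
    intro hu
    obtain ⟨b, hb⟩ := hu.exists_right_inv
    obtain ⟨b, rfl⟩ := Ideal.Quotient.mk_surjective b
    rw [← map_mul, ← map_one (Ideal.Quotient.mk J), Ideal.Quotient.eq] at hb
    have h2 : IsUnit (MvPowerSeries.X i * b - 1 : MvPowerSeries (Fin n) ℂ) := by
      rw [MvPowerSeries.isUnit_iff_constantCoeff]
      simp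
    exact hJ (Ideal.eq_top_of_isUnit_mem _ hb h2)
  have h2 : Ideal.map (Ideal.Quotient.mk J) (mhat n ^ M) ≤ ⊥ := by
    rw [Ideal.map_pow]
    refine (Ideal.pow_right_mono h1 M).trans ?_
    rw [hM]; exact le_rfl
  rw [Ideal.map_le_iff_le_comap] at h2
  refine h2.trans ?_
  rw [← RingHom.ker_eq_comap_bot, Ideal.mk_ker]

lemma VV_sub_trunc (M : ℕ) (a : MvPowerSeries (Fin n) ℂ) :
    VV M (a - ((MvPowerSeries.truncTotal M a : MvPolynomial (Fin n) ℂ) : MvPowerSeries (Fin n) ℂ)) := by
  intro e he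
  rw [map_sub, MvPolynomial.coeff_coe, MvPowerSeries.coeff_truncTotal _ he, sub_self]

variable {ι : Type*} [Fintype ι]

/-- extension of an ideal -/
noncomputable abbrev Jhat (h : ι → MvPolynomial (Fin n) ℂ) : Ideal (MvPowerSeries (Fin n) ℂ) :=
  Ideal.span (Set.range fun i => (h i : MvPowerSeries (Fin n) ℂ))

lemma coe_mem_iff (h : ι → MvPolynomial (Fin n) ℂ) (M : ℕ) (hM : mhat n ^ M ≤ Jhat h)
    (p : MvPolynomial (Fin n) ℂ) :
    (p : MvPowerSeries (Fin n) ℂ) ∈ Jhat h ↔
      p ∈ Ideal.span (Set.range h) ⊔ idealOfVars (Fin n) ℂ ^ M := by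
  constructor
  · intro hp
    rw [Jhat, Ideal.mem_span_range_iff_exists_fun] at hp
    obtain ⟨c, hc⟩ := hp
    have h1 : p = (∑ i, MvPowerSeries.truncTotal M (c i) * h i) +
      (p - ∑ i, MvPowerSeries.truncTotal M (c i) * h i) := by ring
    rw [h1]
    refine Ideal.add_mem _ (Ideal.mem_sup_left ?_) (Ideal.mem_sup_right ?_)
    · exact Ideal.sum_mem _ fun i _ => Ideal.mul_mem_left _ _ (Ideal.subset_span ⟨i, rfl⟩)
    · rw [mem_pow_idealOfVars_iff']
      intro e he
      have h2 : VV M (∑ i, (c i - ((MvPowerSeries.truncTotal M (c i) : MvPolynomial (Fin n) ℂ) :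
          MvPowerSeries (Fin n) ℂ)) * (h i : MvPowerSeries (Fin n) ℂ)) :=
        VV.sum _ fun i _ => (VV_sub_trunc M (c i)).mul_right _
      have h3 := h2 e he
      have h4 : (∑ i, (c i - ((MvPowerSeries.truncTotal M (c i) : MvPolynomial (Fin n) ℂ) :
          MvPowerSeries (Fin n) ℂ)) * (h i : MvPowerSeries (Fin n) ℂ))
          = ((p - ∑ i, MvPowerSeries.truncTotal M (c i) * h i : MvPolynomial (Fin n) ℂ) :
          MvPowerSeries (Fin n) ℂ) := by
        have hsumcoe : ((∑ i, MvPowerSeries.truncTotal M (c i) * h i : MvPolynomial (Fin n) ℂ) :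
          MvPowerSeries (Fin n) ℂ) = ∑ i, ((MvPowerSeries.truncTotal M (c i) :
            MvPolynomial (Fin n) ℂ) : MvPowerSeries (Fin n) ℂ) * (h i : MvPowerSeries (Fin n) ℂ) := by
          rw [← coeToMvPowerSeries.ringHom_apply, map_sum]
          refine Finset.sum_congr rfl fun i _ => ?_
          rw [map_mul, coeToMvPowerSeries.ringHom_apply, coeToMvPowerSeries.ringHom_apply]
        have hsubcoe : ((p - ∑ i, MvPowerSeries.truncTotal M (c i) * h i : MvPolynomial (Fin n) ℂ) :
          MvPowerSeries (Fin n) ℂ) = (p : MvPowerSeries (Fin n) ℂ) -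
            ((∑ i, MvPowerSeries.truncTotal M (c i) * h i : MvPolynomial (Fin n) ℂ) :
          MvPowerSeries (Fin n) ℂ) := by
          rw [← coeToMvPowerSeries.ringHom_apply, map_sub, coeToMvPowerSeries.ringHom_apply,
            coeToMvPowerSeries.ringHom_apply]
        rw [hsubcoe, hsumcoe, ← hc, ← Finset.sum_sub_distrib]
        refine Finset.sum_congr rfl fun i _ => ?_
        rw [sub_mul]
      rw [h4, MvPolynomial.coeff_coe] at h3
      exact h3
  · have h1 : Ideal.span (Set.range h) ⊔ idealOfVars (Fin n) ℂ ^ M ≤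
        Ideal.comap (coeToMvPowerSeries.ringHom (σ := Fin n) (R := ℂ)) (Jhat h) := by
      refine sup_le ?_ ?_
      · rw [Ideal.span_le]
        rintro _ ⟨i, rfl⟩
        change coeToMvPowerSeries.ringHom (h i) ∈ Jhat h
        rw [coeToMvPowerSeries.ringHom_apply]
        exact Ideal.subset_span ⟨i, rfl⟩
      · rw [← Ideal.map_le_iff_le_comap, Ideal.map_pow]
        refine le_trans (Ideal.pow_right_mono ?_ M) hM
        rw [idealOfVars, Ideal.map_span, Ideal.span_le]
        rintro _ ⟨_, ⟨i, rfl⟩, rfl⟩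
        rw [coeToMvPowerSeries.ringHom_apply, coe_X]
        exact Ideal.subset_span ⟨i, rfl⟩
    intro hp
    have := h1 hp
    rw [Ideal.mem_comap, coeToMvPowerSeries.ringHom_apply] at this
    exact this

/-- the map from polynomials to the local algebra -/
noncomputable def phi (J : Ideal (MvPowerSeries (Fin n) ℂ)) :
    MvPolynomial (Fin n) ℂ →ₐ[ℂ] (MvPowerSeries (Fin n) ℂ ⧸ J) :=
  (Ideal.Quotient.mkₐ ℂ J).comp (coeToMvPowerSeries.algHom ℂ)

lemma phi_apply (J : Ideal (MvPowerSeries (Fin n) ℂ)) (p : MvPolynomial (Fin n) ℂ) :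
    phi J p = Ideal.Quotient.mk J (p : MvPowerSeries (Fin n) ℂ) := by
  unfold phi
  rw [AlgHom.comp_apply, coeToMvPowerSeries.algHom_apply, Ideal.Quotient.mkₐ_eq_mk]
  congr 1

lemma phi_surjective (J : Ideal (MvPowerSeries (Fin n) ℂ)) (M : ℕ) (hM : mhat n ^ M ≤ J) :
    Function.Surjective (phi J) := by
  intro x
  obtain ⟨a, rfl⟩ := Ideal.Quotient.mk_surjective x
  refine ⟨MvPowerSeries.truncTotal M a, ?_⟩
  rw [phi_apply]
  symm
  rw [Ideal.Quotient.eq]
  exact hM (mem_mhat_pow M _ (VV_sub_trunc M a))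

lemma ker_phi (h : ι → MvPolynomial (Fin n) ℂ) (M : ℕ) (hM : mhat n ^ M ≤ Jhat h) :
    Ideal.span (Set.range h) ⊔ idealOfVars (Fin n) ℂ ^ M = RingHom.ker (phi (Jhat h)) := by
  ext p
  rw [RingHom.mem_ker, phi_apply, Ideal.Quotient.eq_zero_iff_mem, coe_mem_iff h M hM]

/-- the isomorphism -/
noncomputable def Phi (h : ι → MvPolynomial (Fin n) ℂ) (M : ℕ) (hM : mhat n ^ M ≤ Jhat h) :
    (MvPolynomial (Fin n) ℂ ⧸ (Ideal.span (Set.range h) ⊔ idealOfVars (Fin n) ℂ ^ M)) ≃ₐ[ℂ]
      (MvPowerSeries (Fin n) ℂ ⧸ Jhat h) :=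
  (Ideal.quotientEquivAlgOfEq ℂ (ker_phi h M hM)).trans
    (Ideal.quotientKerAlgEquivOfSurjective (phi_surjective (Jhat h) M hM))

lemma Phi_mk (h : ι → MvPolynomial (Fin n) ℂ) (M : ℕ) (hM : mhat n ^ M ≤ Jhat h)
    (p : MvPolynomial (Fin n) ℂ) :
    Phi h M hM (Ideal.Quotient.mk _ p) = phi (Jhat h) p := by
  unfold Phi
  rw [AlgEquiv.trans_apply]
  rfl

theorem trace_ps (R : Matrix (Fin n) (Fin n) ℂ) (K : ℕ) (hK : 0 < K) (hR : R ^ K = 1)
    (f : Fin n → MvPolynomial (Fin n) ℂ)
    (hf : ∀ i, lin R (f i) = ∑ j, R i j • f j)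
    (hfin : Module.Finite ℂ (MvPowerSeries (Fin n) ℂ ⧸ Jhat f))
    (T : (MvPowerSeries (Fin n) ℂ ⧸ Jhat f) →ₐ[ℂ] (MvPowerSeries (Fin n) ℂ ⧸ Jhat f))
    (hT : ∀ i, T (Ideal.Quotient.mk _ (MvPowerSeries.X i)) = Ideal.Quotient.mk _
      (∑ j, R i j • (MvPowerSeries.X j : MvPowerSeries (Fin n) ℂ))) :
    LinearMap.trace ℂ _ T.toLinearMap = Module.finrank ℂ (MvPowerSeries (Fin n) ℂ ⧸
      Jhat (Sum.elim f fun i => ∑ j, (R - 1) i j • (X j : MvPolynomial (Fin n) ℂ))) := by
  classical
  obtain ⟨M, hM⟩ := exists_pow_le _ hfin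
  have hM1 : mhat n ^ (M + 1) ≤ Jhat f := (Ideal.pow_le_pow_right (by omega)).trans hM
  have hm : idealOfVars (Fin n) ℂ ^ M ≤ JJ f ⊔ idealOfVars (Fin n) ℂ ^ (M + 1) := by
    intro p hp
    rw [← coe_mem_iff f (M + 1) hM1, coe_mem_iff f M hM]
    exact Ideal.mem_sup_right hp
  set g : Fin n ⊕ Fin n → MvPolynomial (Fin n) ℂ :=
    Sum.elim f fun i => ∑ j, (R - 1) i j • (X j : MvPolynomial (Fin n) ℂ) with hg
  have hMg : mhat n ^ M ≤ Jhat g := by
    refine hM.trans (Ideal.span_mono ?_)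
    rintro _ ⟨i, rfl⟩
    exact ⟨Sum.inl i, rfl⟩
  have hspan : Ideal.span (Set.range g) ⊔ idealOfVars (Fin n) ℂ ^ M =
      (JJ f ⊔ idealOfVars (Fin n) ℂ ^ M) ⊔
        JJ (fun i => ∑ j, (R - 1) i j • (X j : MvPolynomial (Fin n) ℂ)) := by
    rw [hg, Set.Sum.elim_range, Ideal.span_union, sup_right_comm]
  set e := Phi f M hM with he
  set e2 := Phi g M hMg with he2
  rw [← e2.toLinearEquiv.finrank_eq, hspan,
    ← LinearMap.trace_conj' T.toLinearMap e.symm.toLinearEquiv]
  refine trace_general R K hK hR f hf M hm _ ?_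
  intro p
  rw [LinearEquiv.conj_apply, LinearMap.comp_apply, LinearMap.comp_apply]
  change e.symm (T (e (Ideal.Quotient.mk _ p))) = _
  rw [AlgEquiv.symm_apply_eq, he, Phi_mk, Phi_mk]
  have h1 : T.comp (phi (Jhat f)) = (phi (Jhat f)).comp (lin R) := by
    apply MvPolynomial.algHom_ext
    intro i
    rw [AlgHom.comp_apply, AlgHom.comp_apply, phi_apply, coe_X, hT, lin_X, map_sum, map_sum]
    refine Finset.sum_congr rfl fun j _ => ?_
    have h2 : phi (Jhat f) (R i j • X j) = R i j • phi (Jhat f) (X j) := map_smul _ _ _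
    rw [h2, phi_apply, coe_X]
    rfl
  exact AlgHom.congr_fun h1 p

end PS

end TH629.EqDeg
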