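import Pool.Agent.TH629.EqDeg.Pham

set_option autoImplicit false

open MvPolynomial

namespace TH629.EqDeg

section Compat

variable {n : ℕ} {R R' : Type*} [CommRing R] [CommRing R'] (φ : R →+* R')

lemma map_mem_W {d : ℕ} {p : MvPolynomial (Fin n) R} (hp : p ∈ W n R d) :
    map φ p ∈ W n R' d := by
  rw [mem_W] at *
  intro e he
  apply hp e
  intro h
  apply he
  rw [coeff_map, h, map_zero]

lemma IsLead.map {p : MvPolynomial (Fin n) R} {a : Fin n →₀ ℕ} (hp : IsLead p a) :
    IsLead (MvPolynomial.map φ p) a := by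
  unfold IsLead at *
  have := map_mem_W φ hp
  rwa [map_sub, map_monomial, map_one] at this

lemma map_mem_JJ (F : Fin n → MvPolynomial (Fin n) R) (F' : Fin n → MvPolynomial (Fin n) R')
    (h : ∀ i, map φ (F i) = F' i) {p : MvPolynomial (Fin n) R} (hp : p ∈ JJ F) :
    map φ p ∈ JJ F' := by
  have : JJ F ≤ Ideal.comap (map φ) (JJ F') := by
    rw [JJ, Ideal.span_le]
    rintro _ ⟨i, rfl⟩
    change map φ (F i) ∈ JJ F'
    rw [h]
    exact Ideal.subset_span ⟨i, rfl⟩
  exact this hp

/-- compatibility of the coordinates in the Pham basis with base change -/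
lemma repr_map (N : ℕ) (F : Fin n → MvPolynomial (Fin n) R) (F' : Fin n → MvPolynomial (Fin n) R')
    (hF : ∀ i, IsLead (F i) (Finsupp.single i N)) (hF' : ∀ i, IsLead (F' i) (Finsupp.single i N))
    (h : ∀ i, map φ (F i) = F' i) (hN : 0 < N) (q : MvPolynomial (Fin n) R)
    (a : Fin n → Fin N) :
    (phamBasis N F' hF' hN).repr (Ideal.Quotient.mk _ (map φ q)) a
      = φ ((phamBasis N F hF hN).repr (Ideal.Quotient.mk _ q) a) := by
  classical
  set b := phamBasis N F hF hN with hb
  set b' := phamBasis N F' hF' hN with hb'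
  have h1 : Ideal.Quotient.mk (JJ F) q = ∑ c, b.repr (Ideal.Quotient.mk _ q) c • b c :=
    (b.sum_repr _).symm
  set α := b.repr (Ideal.Quotient.mk (JJ F) q) with hα
  have h2 : Ideal.Quotient.mk (JJ F) (q - ∑ c, α c • monomial (ev N c) (1 : R)) = 0 := by
    rw [map_sub, h1, map_sum, sub_eq_zero]
    refine Finset.sum_congr rfl fun c _ => ?_
    rw [hb, phamBasis_apply]
    rfl
  rw [Ideal.Quotient.eq_zero_iff_mem] at h2
  have h3 := map_mem_JJ φ F F' h h2
  rw [map_sub, map_sum] at h3
  have h4 : Ideal.Quotient.mk (JJ F') (map φ q) = ∑ c, φ (α c) • b' c := by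
    rw [← Ideal.Quotient.eq_zero_iff_mem, map_sub, sub_eq_zero] at h3
    rw [h3, map_sum]
    refine Finset.sum_congr rfl fun c _ => ?_
    rw [hb', phamBasis_apply, smul_eq_C_mul, map_mul, map_C, map_monomial, map_one,
      ← smul_eq_C_mul]
    rfl
  rw [h4]
  simp only [map_sum, map_smul, Module.Basis.repr_self, Finsupp.coe_finsetSum, Finset.sum_apply,
    Finsupp.smul_apply, smul_eq_mul, Finsupp.single_apply, mul_ite, mul_one, mul_zero,
    Finset.sum_ite_eq', Finset.mem_univ, if_true]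

end Compat

section Poly

variable {n : ℕ} (d : Fin n → ℂ) (N : ℕ) (F : Fin n → MvPolynomial (Fin n) ℂ)

/-- the deformed system -/
noncomputable def Fs (s : ℂ) (i : Fin n) : MvPolynomial (Fin n) ℂ :=
  F i + C (s * (1 - d i)) * X i

/-- the universal deformed system -/
noncomputable def FS (i : Fin n) : MvPolynomial (Fin n) (Polynomial ℂ) :=
  map Polynomial.C (F i) + C (Polynomial.X * Polynomial.C (1 - d i)) * X i

lemma map_FS (s : ℂ) (i : Fin n) : map (Polynomial.evalRingHom s) (FS d F i) = Fs d F s i := by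
  unfold FS Fs
  rw [map_add, map_map, map_mul, map_C, map_X]
  have h1 : (Polynomial.evalRingHom s).comp Polynomial.C = RingHom.id ℂ := by
    ext; simp
  rw [h1, map_id]
  simp

lemma isLead_add {R : Type*} [CommRing R] {p q : MvPolynomial (Fin n) R} {a : Fin n →₀ ℕ}
    (hp : IsLead p a) (hq : q ∈ W n R a.degree) : IsLead (p + q) a := by
  unfold IsLead at *
  have : p + q - monomial a 1 = (p - monomial a 1) + q := by ring
  rw [this]
  exact Submodule.add_mem _ hp hq

lemma C_mul_X_mem {R : Type*} [CommRing R] (r : R) (i : Fin n) (m : ℕ) (hm : 2 ≤ m) :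
    C r * X i ∈ W n R m := by
  have h1 : C r * X i = monomial (Finsupp.single i 1) r := by
    rw [X, C_mul_monomial, mul_one]
  rw [h1]
  refine W_mono ?_ (monomial_mem_W _ _)
  rw [Finsupp.degree_single]
  omega

variable (hF : ∀ i, IsLead (F i) (Finsupp.single i N)) (hN : 2 ≤ N)

include hF hN in
lemma isLead_Fs (s : ℂ) (i : Fin n) : IsLead (Fs d F s i) (Finsupp.single i N) := by
  unfold Fs
  refine isLead_add (hF i) (C_mul_X_mem _ _ _ ?_)
  rw [Finsupp.degree_single]; exact hN

include hF hN in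
lemma isLead_FS (i : Fin n) : IsLead (FS d F i) (Finsupp.single i N) := by
  unfold FS
  refine isLead_add ((hF i).map _) (C_mul_X_mem _ _ _ ?_)
  rw [Finsupp.degree_single]; exact hN

include hF in
lemma phamFinite (hN : 0 < N) : Module.Finite ℂ (MvPolynomial (Fin n) ℂ ⧸ JJ F) :=
  Module.Finite.of_basis (phamBasis N F hF hN)

include hF hN in
/-- The trace on the deformed algebra is a polynomial function of the parameter. -/
theorem trace_poly (ℓ : MvPolynomial (Fin n) ℂ → MvPolynomial (Fin n) ℂ)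
    (L : ∀ s : ℂ, (MvPolynomial (Fin n) ℂ ⧸ JJ (Fs d F s)) →ₗ[ℂ]
      (MvPolynomial (Fin n) ℂ ⧸ JJ (Fs d F s)))
    (hL : ∀ s p, L s (Ideal.Quotient.mk _ p) = Ideal.Quotient.mk _ (ℓ p)) :
    ∃ P : Polynomial ℂ, ∀ s : ℂ, LinearMap.trace ℂ _ (L s) = P.eval s := by
  classical
  have hN0 : 0 < N := by omega
  refine ⟨∑ a : Fin n → Fin N, (phamBasis N (FS d F) (isLead_FS d N F hF hN) hN0).repr
    (Ideal.Quotient.mk _ (map Polynomial.C (ℓ (monomial (ev N a) 1)))) a, ?_⟩
  intro s
  rw [LinearMap.trace_eq_matrix_trace ℂ (phamBasis N (Fs d F s) (isLead_Fs d N F hF hN s) hN0),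
    Matrix.trace, Polynomial.eval_finsetSum]
  refine Finset.sum_congr rfl fun a _ => ?_
  rw [Matrix.diag_apply, LinearMap.toMatrix_apply, phamBasis_apply, hL]
  have h := repr_map (Polynomial.evalRingHom s) N (FS d F) (Fs d F s) (isLead_FS d N F hF hN)
    (isLead_Fs d N F hF hN s) (map_FS d F s) hN0
    (map Polynomial.C (ℓ (monomial (ev N a) 1))) a
  have h1 : (Polynomial.evalRingHom s).comp Polynomial.C = RingHom.id ℂ := by
    ext; simp
  rw [map_map, h1, map_id] at h
  rw [h]
  rfl

end Poly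

end TH629.EqDeg
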