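import Pool.Agent.TH629.EqDeg.Local

set_option autoImplicit false

open MvPolynomial

namespace TH629.EqDeg

section Diag

variable {n : ℕ}

/-- A matrix of finite order is diagonalisable. -/
lemma exists_diag (R : Matrix (Fin n) (Fin n) ℂ) (K : ℕ) (hK : 0 < K) (hR : R ^ K = 1) :
    ∃ (d : Fin n → ℂ) (V V' : Matrix (Fin n) (Fin n) ℂ), V * V' = 1 ∧ V' * V = 1 ∧
      V * R = Matrix.diagonal d * V ∧ ∀ i, d i ^ K = 1 := by
  classical
  set φ : Module.End ℂ (Fin n → ℂ) := Matrix.toLin' R.transpose with hφ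
  have hφK : φ ^ K = 1 := by
    rw [hφ, ← Matrix.toLin'_pow, ← Matrix.transpose_pow, hR, Matrix.transpose_one,
      Matrix.toLin'_one]
    rfl
  have hss : φ.IsSemisimple := by
    refine Module.End.isSemisimple_of_squarefree_aeval_eq_zero
      (p := (Polynomial.X ^ K - 1 : Polynomial ℂ)) ?_ ?_
    · apply Polynomial.Separable.squarefree
      rw [Polynomial.X_pow_sub_one_separable_iff]
      exact_mod_cast hK.ne'
    · rw [map_sub, map_pow, Polynomial.aeval_X, map_one, hφK, sub_self]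
  have htop := hss.iSup_eigenspace_eq_top
  set E : Set (Fin n → ℂ) := {v | ∃ μ : ℂ, φ v = μ • v} with hE
  have hspan : ⊤ ≤ Submodule.span ℂ E := by
    rw [← htop]
    refine iSup_le fun μ => ?_
    intro v hv
    rw [Module.End.mem_eigenspace_iff] at hv
    exact Submodule.subset_span ⟨μ, hv⟩
  set b0 := Module.Basis.ofSpan hspan with hb0
  set b := b0.reindex (b0.indexEquiv (Pi.basisFun ℂ (Fin n))) with hb
  have hbE : ∀ i, b i ∈ E := by
    intro i
    rw [hb, Module.Basis.reindex_apply]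
    exact Module.Basis.ofSpan_subset hspan ⟨_, rfl⟩
  choose d hd using hbE
  set V : Matrix (Fin n) (Fin n) ℂ := Matrix.of fun i j => b i j with hV
  have hVu : IsUnit V := by
    rw [← Matrix.linearIndependent_rows_iff_isUnit]
    exact b.linearIndependent
  obtain ⟨⟨V1, V', h1, h2⟩, h3⟩ := hVu
  change V1 = V at h3
  subst h3
  have hVR : V * R = Matrix.diagonal d * V := by
    ext i j
    rw [Matrix.diagonal_mul]
    have h4 := congrFun (hd i) j
    rw [hφ, Matrix.toLin'_apply, Matrix.mulVec_transpose, Pi.smul_apply, smul_eq_mul] at h4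
    exact h4
  refine ⟨d, V, V', h1, h2, hVR, ?_⟩
  have h5 : ∀ k : ℕ, V * R ^ k = Matrix.diagonal d ^ k * V := by
    intro k
    induction k with
    | zero => rw [pow_zero, pow_zero, Matrix.mul_one, Matrix.one_mul]
    | succ k ih =>
      rw [pow_succ, ← Matrix.mul_assoc, ih, Matrix.mul_assoc, hVR, pow_succ, Matrix.mul_assoc]
  have h6 := h5 K
  rw [hR, Matrix.mul_one] at h6
  have h7 : Matrix.diagonal d ^ K = (1 : Matrix (Fin n) (Fin n) ℂ) := by
    have : V * V' = Matrix.diagonal d ^ K * (V * V') := by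
      rw [← Matrix.mul_assoc, ← h6]
    rw [h1, Matrix.mul_one] at this
    exact this.symm
  intro i
  rw [Matrix.diagonal_pow] at h7
  have h8 := congrFun (congrFun h7 i) i
  rw [Matrix.diagonal_apply_eq, Matrix.one_apply_eq, Pi.pow_apply] at h8
  exact h8

/-- linear substitution -/
noncomputable def lin (A : Matrix (Fin n) (Fin n) ℂ) :
    MvPolynomial (Fin n) ℂ →ₐ[ℂ] MvPolynomial (Fin n) ℂ :=
  aeval fun i => ∑ j, A i j • (X j : MvPolynomial (Fin n) ℂ)

lemma lin_X (A : Matrix (Fin n) (Fin n) ℂ) (i : Fin n) :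
    lin A (X i) = ∑ j, A i j • (X j : MvPolynomial (Fin n) ℂ) := by
  unfold lin; rw [aeval_X]

lemma sum_comb (A B : Matrix (Fin n) (Fin n) ℂ) (g : Fin n → MvPolynomial (Fin n) ℂ) (i : Fin n) :
    ∑ j, A i j • ∑ k, B j k • g k = ∑ k, (A * B) i k • g k := by
  simp only [Finset.smul_sum, smul_smul]
  rw [Finset.sum_comm]
  refine Finset.sum_congr rfl fun k _ => ?_
  rw [Matrix.mul_apply, Finset.sum_smul]

lemma lin_lin (A B : Matrix (Fin n) (Fin n) ℂ) (p : MvPolynomial (Fin n) ℂ) :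
    lin A (lin B p) = lin (B * A) p := by
  have h : (lin A).comp (lin B) = lin (B * A) := by
    apply MvPolynomial.algHom_ext
    intro i
    rw [AlgHom.comp_apply, lin_X, lin_X, map_sum]
    simp only [map_smul, lin_X]
    exact sum_comb B A X i
  exact AlgHom.congr_fun h p

lemma one_comb (g : Fin n → MvPolynomial (Fin n) ℂ) (i : Fin n) :
    ∑ j, (1 : Matrix (Fin n) (Fin n) ℂ) i j • g j = g i := by
  classical
  rw [Finset.sum_eq_single i]
  · rw [Matrix.one_apply_eq, one_smul]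
  · intro j _ hj
    rw [Matrix.one_apply_ne hj.symm, zero_smul]
  · intro h; exact absurd (Finset.mem_univ i) h

lemma lin_one (p : MvPolynomial (Fin n) ℂ) : lin (1 : Matrix (Fin n) (Fin n) ℂ) p = p := by
  have h : lin (1 : Matrix (Fin n) (Fin n) ℂ) = AlgHom.id ℂ _ := by
    apply MvPolynomial.algHom_ext
    intro i
    rw [lin_X, one_comb]; rfl
  rw [h]; rfl

lemma lin_diagonal (d : Fin n → ℂ) : lin (Matrix.diagonal d) = TT d := by
  classical
  apply MvPolynomial.algHom_ext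
  intro i
  rw [lin_X, TT_X, Finset.sum_eq_single i]
  · rw [Matrix.diagonal_apply_eq, smul_eq_C_mul]
  · intro j _ hj
    rw [Matrix.diagonal_apply_ne _ hj.symm, zero_smul]
  · intro h; exact absurd (Finset.mem_univ i) h

lemma span_comb (V V' : Matrix (Fin n) (Fin n) ℂ) (h : V' * V = 1)
    (g : Fin n → MvPolynomial (Fin n) ℂ) :
    Ideal.span (Set.range fun i => ∑ j, V i j • g j) = Ideal.span (Set.range g) := by
  have hle : ∀ (V : Matrix (Fin n) (Fin n) ℂ) (g : Fin n → MvPolynomial (Fin n) ℂ),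
      Ideal.span (Set.range fun i => ∑ j, V i j • g j) ≤ Ideal.span (Set.range g) := by
    intro V g
    rw [Ideal.span_le]
    rintro _ ⟨i, rfl⟩
    refine Ideal.sum_mem _ fun j _ => ?_
    rw [smul_eq_C_mul]
    exact Ideal.mul_mem_left _ _ (Ideal.subset_span ⟨j, rfl⟩)
  apply le_antisymm (hle V g)
  have h2 := hle V' (fun i => ∑ j, V i j • g j)
  simp only [sum_comb, h, one_comb] at h2
  exact h2

theorem trace_general (R : Matrix (Fin n) (Fin n) ℂ) (K : ℕ) (hK : 0 < K) (hR : R ^ K = 1)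
    (f : Fin n → MvPolynomial (Fin n) ℂ)
    (hf : ∀ i, lin R (f i) = ∑ j, R i j • f j) (M : ℕ)
    (hm : idealOfVars (Fin n) ℂ ^ M ≤ JJ f ⊔ idealOfVars (Fin n) ℂ ^ (M + 1))
    (L : (MvPolynomial (Fin n) ℂ ⧸ (JJ f ⊔ idealOfVars (Fin n) ℂ ^ M)) →ₗ[ℂ]
      (MvPolynomial (Fin n) ℂ ⧸ (JJ f ⊔ idealOfVars (Fin n) ℂ ^ M)))
    (hL : ∀ p, L (Ideal.Quotient.mk _ p) = Ideal.Quotient.mk _ (lin R p)) :
    LinearMap.trace ℂ _ L = Module.finrank ℂ
      (MvPolynomial (Fin n) ℂ ⧸ ((JJ f ⊔ idealOfVars (Fin n) ℂ ^ M) ⊔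
        JJ (fun i => ∑ j, (R - 1) i j • (X j : MvPolynomial (Fin n) ℂ)))) := by
  classical
  obtain ⟨d, V, V', hVV', hV'V, hVR, hdK⟩ := exists_diag R K hK hR
  have hRV' : R * V' = V' * Matrix.diagonal d := by
    calc R * V' = (V' * V) * (R * V') := by rw [hV'V, Matrix.one_mul]
      _ = V' * (V * R) * V' := by simp only [Matrix.mul_assoc]
      _ = V' * (Matrix.diagonal d) * (V * V') := by rw [hVR]; simp only [Matrix.mul_assoc]
      _ = _ := by rw [hVV', Matrix.mul_one]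
  set Θ : MvPolynomial (Fin n) ℂ ≃ₐ[ℂ] MvPolynomial (Fin n) ℂ :=
    AlgEquiv.ofAlgHom (lin V') (lin V)
      (by ext1 i; simp only [AlgHom.comp_apply, AlgHom.id_apply]; rw [lin_lin, hVV', lin_one])
      (by ext1 i; simp only [AlgHom.comp_apply, AlgHom.id_apply]; rw [lin_lin, hV'V, lin_one])
    with hΘ
  have hΘa : ∀ p, Θ p = lin V' p := fun p => rfl
  have hΘs : ∀ p, Θ.symm p = lin V p := fun p => rfl
  set f' : Fin n → MvPolynomial (Fin n) ℂ := fun i => ∑ j, V i j • lin V' (f j) with hf'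
  have hTf' : ∀ i, TT d (f' i) = C (d i) * f' i := by
    intro i
    rw [hf', ← lin_diagonal]
    simp only
    rw [map_sum]
    simp only [map_smul, lin_lin]
    rw [← hRV']
    have h1 : ∀ j, lin (R * V') (f j) = lin V' (∑ k, R j k • f k) := by
      intro j
      rw [← hf, lin_lin]
    simp only [h1, map_sum, map_smul]
    rw [sum_comb V R (fun k => lin V' (f k)) i, hVR, ← smul_eq_C_mul, Finset.smul_sum]
    refine Finset.sum_congr rfl fun k _ => ?_
    rw [Matrix.diagonal_mul, smul_smul]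
  -- ideals
  have hmapspan : ∀ g : Fin n → MvPolynomial (Fin n) ℂ,
      Ideal.map (Θ : MvPolynomial (Fin n) ℂ →+* MvPolynomial (Fin n) ℂ) (Ideal.span (Set.range g))
        = Ideal.span (Set.range fun i => lin V' (g i)) := by
    intro g
    rw [Ideal.map_span, ← Set.range_comp]
    rfl
  have hmapf : Ideal.map (Θ : MvPolynomial (Fin n) ℂ →+* MvPolynomial (Fin n) ℂ) (JJ f) = JJ f' := by
    rw [JJ, hmapspan, JJ, hf', span_comb V V' hV'V]
  have hmapm : Ideal.map (Θ : MvPolynomial (Fin n) ℂ →+* MvPolynomial (Fin n) ℂ)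
      (idealOfVars (Fin n) ℂ) = idealOfVars (Fin n) ℂ := by
    rw [idealOfVars, hmapspan]
    simp only [lin_X]
    exact span_comb V' V hVV' X
  have hmapR : Ideal.map (Θ : MvPolynomial (Fin n) ℂ →+* MvPolynomial (Fin n) ℂ)
      (JJ (fun i => ∑ j, (R - 1) i j • (X j : MvPolynomial (Fin n) ℂ))) = II d := by
    rw [JJ, hmapspan]
    have h1 : ∀ i, lin V' (∑ j, (R - 1) i j • (X j : MvPolynomial (Fin n) ℂ))
        = ∑ j, V' i j • (((-1 : ℂ)) • (C (1 - d j) * X j : MvPolynomial (Fin n) ℂ)) := by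
      intro i
      rw [map_sum]
      simp only [map_smul, lin_X]
      rw [sum_comb, Matrix.sub_mul, Matrix.one_mul, hRV']
      refine Finset.sum_congr rfl fun k _ => ?_
      rw [Matrix.sub_apply, Matrix.mul_diagonal, ← smul_eq_C_mul, smul_smul, smul_smul]
      congr 1
      ring
    simp only [h1]
    rw [span_comb V' V hVV' (fun j => ((-1 : ℂ)) • (C (1 - d j) * X j : MvPolynomial (Fin n) ℂ))]
    apply le_antisymm
    · rw [Ideal.span_le]
      rintro _ ⟨i, rfl⟩
      change (-1 : ℂ) • (C (1 - d i) * X i : MvPolynomial (Fin n) ℂ) ∈ II d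
      rw [smul_eq_C_mul]
      exact Ideal.mul_mem_left _ _ (Ideal.subset_span ⟨i, rfl⟩)
    · rw [II, Ideal.span_le]
      rintro _ ⟨i, rfl⟩
      have h2 : (C (1 - d i) * X i : MvPolynomial (Fin n) ℂ)
          = C (-1) * ((-1 : ℂ) • (C (1 - d i) * X i : MvPolynomial (Fin n) ℂ)) := by
        rw [← smul_eq_C_mul (_ • _), smul_smul]; norm_num
      change (C (1 - d i) * X i : MvPolynomial (Fin n) ℂ) ∈ _
      rw [h2]
      exact Ideal.mul_mem_left _ _ (Ideal.subset_span ⟨i, rfl⟩)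
  have hm' : idealOfVars (Fin n) ℂ ^ M ≤ JJ f' ⊔ idealOfVars (Fin n) ℂ ^ (M + 1) := by
    have h1 := Ideal.map_mono (f := (Θ : MvPolynomial (Fin n) ℂ →+* MvPolynomial (Fin n) ℂ)) hm
    rwa [Ideal.map_sup, Ideal.map_pow, Ideal.map_pow, hmapm, hmapf] at h1
  have hq : JJ f' ⊔ idealOfVars (Fin n) ℂ ^ M =
      Ideal.map (Θ : MvPolynomial (Fin n) ℂ →+* MvPolynomial (Fin n) ℂ)
        (JJ f ⊔ idealOfVars (Fin n) ℂ ^ M) := by
    rw [Ideal.map_sup, Ideal.map_pow, hmapm, hmapf]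
  set e := Ideal.quotientEquivAlg _ _ Θ hq with he
  have hq2 : (JJ f' ⊔ idealOfVars (Fin n) ℂ ^ M) ⊔ II d =
      Ideal.map (Θ : MvPolynomial (Fin n) ℂ →+* MvPolynomial (Fin n) ℂ)
        ((JJ f ⊔ idealOfVars (Fin n) ℂ ^ M) ⊔
          JJ (fun i => ∑ j, (R - 1) i j • (X j : MvPolynomial (Fin n) ℂ))) := by
    rw [Ideal.map_sup, hmapR, hq]
  set e2 := Ideal.quotientEquivAlg _ _ Θ hq2 with he2
  rw [e2.toLinearEquiv.finrank_eq, ← LinearMap.trace_conj' L e.toLinearEquiv]
  refine trace_local d f' K hK hdK hTf' M hm' _ ?_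
  intro p
  rw [LinearEquiv.conj_apply, LinearMap.comp_apply, LinearMap.comp_apply]
  have h1 : e.toLinearEquiv.symm (Ideal.Quotient.mk _ p) = Ideal.Quotient.mk _ (lin V p) := by
    rw [LinearEquiv.symm_apply_eq]
    change _ = e (Ideal.Quotient.mk _ (lin V p))
    rw [he, Ideal.quotientEquivAlg_mk, hΘa, lin_lin, hVV', lin_one]
  change e (L (e.toLinearEquiv.symm (Ideal.Quotient.mk _ p))) = _
  have h2 : V * (R * V') = Matrix.diagonal d := by
    rw [← Matrix.mul_assoc, hVR, Matrix.mul_assoc, hVV', Matrix.mul_one]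
  rw [h1, hL, he, Ideal.quotientEquivAlg_mk, hΘa, lin_lin, lin_lin, h2, ← lin_diagonal]

end Diag

end TH629.EqDeg
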