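import Pool.Agent.TH629.EqDeg.Compat

set_option autoImplicit false

open MvPolynomial

namespace TH629.EqDeg

section Key

variable {K A B : Type*} [Field K] [CommRing A] [Algebra K A] [Module.Finite K A]
  [CommRing B] [Algebra K B] [Module.Finite K B]

theorem key (T : A →ₐ[K] A) (π : A →ₐ[K] B) (hπ : Function.Surjective π)
    (hT : ∀ a, π (T a) = π a)
    (hI : ∀ b, π b = 0 → LinearMap.trace K A (LinearMap.mulLeft K b ∘ₗ T.toLinearMap) = 0)
    (Δ : A) (hΔ : ∀ b, π b = 0 → Δ * b = 0) (hu : IsUnit (π Δ)) (u : A) :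
    LinearMap.trace K A (LinearMap.mulLeft K u ∘ₗ T.toLinearMap)
      = LinearMap.trace K B (LinearMap.mulLeft K (π u)) := by
  obtain ⟨w, hw⟩ := hu.exists_right_inv
  obtain ⟨v, rfl⟩ := hπ w
  obtain ⟨σ, hσ⟩ := LinearMap.exists_rightInverse_of_surjective π.toLinearMap
    (LinearMap.range_eq_top.mpr hπ)
  have hσ' : ∀ b, π (σ b) = b := fun b => LinearMap.congr_fun hσ b
  set κ : B →ₗ[K] A := (LinearMap.mulLeft K (u * (Δ * v)) ∘ₗ T.toLinearMap) ∘ₗ σ with hκ
  have h1 : LinearMap.trace K A (LinearMap.mulLeft K u ∘ₗ T.toLinearMap)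
      = LinearMap.trace K A (LinearMap.mulLeft K (u * (Δ * v)) ∘ₗ T.toLinearMap) := by
    have h2 : LinearMap.mulLeft K u ∘ₗ T.toLinearMap
        = LinearMap.mulLeft K (u * (Δ * v)) ∘ₗ T.toLinearMap
          + LinearMap.mulLeft K (u * (1 - Δ * v)) ∘ₗ T.toLinearMap := by
      ext a
      simp only [LinearMap.comp_apply, LinearMap.mulLeft_apply, LinearMap.add_apply]
      ring
    have h3 : π (u * (1 - Δ * v)) = 0 := by
      rw [map_mul, map_sub, map_one, map_mul, hw, sub_self, mul_zero]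
    rw [h2, map_add, hI _ h3, add_zero]
  have h4 : LinearMap.mulLeft K (u * (Δ * v)) ∘ₗ T.toLinearMap = κ ∘ₗ π.toLinearMap := by
    ext a
    simp only [hκ, LinearMap.comp_apply, LinearMap.mulLeft_apply, AlgHom.toLinearMap_apply]
    have h5 : π (T (a - σ (π a))) = 0 := by
      rw [hT, map_sub, hσ', sub_self]
    have h6 := hΔ _ h5
    rw [map_sub, mul_sub, sub_eq_zero] at h6
    calc u * (Δ * v) * T a = u * v * (Δ * T a) := by ring
      _ = u * v * (Δ * T (σ (π a))) := by rw [h6]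
      _ = _ := by ring
  have h7 : LinearMap.mulLeft K (π u) = π.toLinearMap ∘ₗ κ := by
    ext b
    simp only [hκ, LinearMap.comp_apply, LinearMap.mulLeft_apply, AlgHom.toLinearMap_apply]
    rw [map_mul, map_mul, map_mul, hw, mul_one, hT, hσ']
  rw [h1, h4, h7, LinearMap.trace_comp_comm']

theorem key2 (T : A →ₗ[K] A) (π : A →ₐ[K] B) (hπ : Function.Surjective π)
    (T' : B →ₗ[K] B) (hT : ∀ a, T' (π a) = π (T a))
    (e : A) (he : ∀ b, π b = 0 → e * b = 0) (he1 : π e = 1) :
    LinearMap.trace K B T' = LinearMap.trace K A (LinearMap.mulLeft K e ∘ₗ T) := by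
  obtain ⟨σ, hσ⟩ := LinearMap.exists_rightInverse_of_surjective π.toLinearMap
    (LinearMap.range_eq_top.mpr hπ)
  have hσ' : ∀ b, π (σ b) = b := fun b => LinearMap.congr_fun hσ b
  have h1 : LinearMap.mulLeft K e ∘ₗ T
      = (LinearMap.mulLeft K e ∘ₗ σ ∘ₗ T') ∘ₗ π.toLinearMap := by
    ext a
    simp only [LinearMap.comp_apply, LinearMap.mulLeft_apply, AlgHom.toLinearMap_apply]
    rw [hT]
    have h5 : π (T a - σ (π (T a))) = 0 := by
      rw [map_sub, hσ', sub_self]
    have h6 := he _ h5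
    rwa [mul_sub, sub_eq_zero] at h6
  have h2 : T' = π.toLinearMap ∘ₗ (LinearMap.mulLeft K e ∘ₗ σ ∘ₗ T') := by
    ext b
    simp only [LinearMap.comp_apply, LinearMap.mulLeft_apply, AlgHom.toLinearMap_apply]
    rw [map_mul, he1, one_mul, hσ']
  rw [h1, LinearMap.trace_comp_comm', ← h2]

lemma finite_spectrum_of_finite {M : Type*} [Ring M] [Algebra K M] [Module.Finite K M] (a : M) :
    (spectrum K a).Finite := by
  have h : spectrum K a = spectrum K (Algebra.lmul K M a) := by
    ext r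
    rw [spectrum.mem_iff, spectrum.mem_iff]
    have : (algebraMap K (Module.End K M) r - Algebra.lmul K M a)
        = Algebra.lmul K M (algebraMap K M r - a) := by
      rw [map_sub, AlgHom.commutes]
    rw [this, Algebra.lmul_isUnit_iff]
  rw [h]
  exact Module.End.finite_spectrum _

end Key

end TH629.EqDeg
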