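import Pool.Agent.TH629.EqDeg.Numeric

set_option autoImplicit false

open MvPolynomial

namespace TH629.EqDeg

section Local

variable {n : ℕ}

lemma exists_idem_aux {A : Type*} [CommRing A] (I : Ideal A) (hI : I.FG) (M : ℕ)
    (h1 : I ^ M ≤ I ^ (M + 1)) : ∃ ε : A, IsIdempotentElem ε ∧ I ^ M = Ideal.span {ε} := by
  have h2 : ∀ j, I ^ M ≤ I ^ (M + j) := by
    intro j
    induction j with
    | zero => exact le_rfl
    | succ j ih =>
      calc I ^ M ≤ I ^ (M + j) := ih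
        _ = I ^ M * I ^ j := pow_add _ _ _
        _ ≤ I ^ (M + 1) * I ^ j := Ideal.mul_mono_left h1
        _ = I ^ (M + (j + 1)) := by rw [← pow_add]; congr 1; omega
  have h3 : IsIdempotentElem (I ^ M) := by
    change I ^ M * I ^ M = I ^ M
    apply le_antisymm
    · exact Ideal.mul_le_right
    · rw [← pow_add]; exact h2 M
  exact (Ideal.isIdempotentElem_iff_of_fg _ hI.pow).mp h3

/-- existence of the idempotent, lifted to polynomials -/
lemma exists_idem (F : Fin n → MvPolynomial (Fin n) ℂ) (M : ℕ)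
    (hm : idealOfVars (Fin n) ℂ ^ M ≤ JJ F ⊔ idealOfVars (Fin n) ℂ ^ (M + 1)) :
    ∃ u : MvPolynomial (Fin n) ℂ, u - 1 ∈ JJ F ⊔ idealOfVars (Fin n) ℂ ^ M ∧
      ∀ q ∈ idealOfVars (Fin n) ℂ ^ M, u * q ∈ JJ F := by
  classical
  set m := idealOfVars (Fin n) ℂ with hmdef
  set mA : Ideal (MvPolynomial (Fin n) ℂ ⧸ JJ F) := Ideal.map (Ideal.Quotient.mk (JJ F)) m with hmA
  have h1 : mA ^ M ≤ mA ^ (M + 1) := by
    rw [hmA, ← Ideal.map_pow, ← Ideal.map_pow, Ideal.map_le_iff_le_comap]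
    refine hm.trans ?_
    rw [← Ideal.map_le_iff_le_comap, Ideal.map_sup, Ideal.map_quotient_self, bot_sup_eq]
  obtain ⟨ε, hε, hspan⟩ := exists_idem_aux mA ((idealOfVars_fg (Fin n) ℂ).map _) M h1
  obtain ⟨w, hw⟩ := Ideal.Quotient.mk_surjective ε
  refine ⟨1 - w, ?_, ?_⟩
  · have h4 : ε ∈ Ideal.map (Ideal.Quotient.mk (JJ F)) (m ^ M) := by
      rw [Ideal.map_pow, ← hmA, hspan]
      exact Ideal.mem_span_singleton_self _
    rw [Ideal.mem_map_iff_of_surjective _ Ideal.Quotient.mk_surjective] at h4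
    obtain ⟨y, hy, hy2⟩ := h4
    have h5 : w - y ∈ JJ F := by
      rw [← Ideal.Quotient.eq, hw, hy2]
    have h6 : 1 - w - 1 = - ((w - y) + y) := by ring
    rw [h6]
    exact Ideal.neg_mem_iff _ |>.mpr (Ideal.add_mem _ (Ideal.mem_sup_left h5)
      (Ideal.mem_sup_right hy))
  · intro q hq
    rw [← Ideal.Quotient.eq_zero_iff_mem, map_mul, map_sub, map_one, hw]
    have h4 : Ideal.Quotient.mk (JJ F) q ∈ Ideal.span {ε} := by
      rw [← hspan, hmA, ← Ideal.map_pow]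
      exact Ideal.mem_map_of_mem _ hq
    rw [Ideal.mem_span_singleton'] at h4
    obtain ⟨c, hc⟩ := h4
    rw [← hc]
    have : (1 - ε) * (c * ε) = c * (ε - ε * ε) := by ring
    rw [this, hε.eq, sub_self, mul_zero]

variable (d : Fin n → ℂ) (f : Fin n → MvPolynomial (Fin n) ℂ)

theorem trace_local (K : ℕ) (hK : 0 < K) (hd : ∀ i, d i ^ K = 1)
    (hTf : ∀ i, TT d (f i) = C (d i) * f i) (M : ℕ)
    (hm : idealOfVars (Fin n) ℂ ^ M ≤ JJ f ⊔ idealOfVars (Fin n) ℂ ^ (M + 1))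
    (L : (MvPolynomial (Fin n) ℂ ⧸ (JJ f ⊔ idealOfVars (Fin n) ℂ ^ M)) →ₗ[ℂ]
      (MvPolynomial (Fin n) ℂ ⧸ (JJ f ⊔ idealOfVars (Fin n) ℂ ^ M)))
    (hL : ∀ p, L (Ideal.Quotient.mk _ p) = Ideal.Quotient.mk _ (TT d p)) :
    LinearMap.trace ℂ _ L = Module.finrank ℂ
      (MvPolynomial (Fin n) ℂ ⧸ ((JJ f ⊔ idealOfVars (Fin n) ℂ ^ M) ⊔ II d)) := by
  classical
  set m := idealOfVars (Fin n) ℂ with hmdef
  obtain ⟨N, hN2, hNM, hNd, hNf⟩ : ∃ N : ℕ, 2 ≤ N ∧ M + 1 ≤ N ∧ (∀ i, d i ^ N = d i) ∧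
      ∀ i, (f i).totalDegree < N := by
    refine ⟨1 + K * (M + 1 + ∑ i, (f i).totalDegree), ?_, ?_, ?_, ?_⟩
    · have : 1 * 1 ≤ K * (M + 1 + ∑ i, (f i).totalDegree) :=
        Nat.mul_le_mul hK (by omega)
      omega
    · have : 1 * (M + 1) ≤ K * (M + 1 + ∑ i, (f i).totalDegree) :=
        Nat.mul_le_mul hK (by omega)
      omega
    · intro i
      rw [pow_add, pow_one, pow_mul, hd, one_pow, mul_one]
    · intro i
      have h1 : (f i).totalDegree ≤ ∑ i, (f i).totalDegree :=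
        Finset.single_le_sum (f := fun i => (f i).totalDegree) (fun _ _ => Nat.zero_le _)
          (Finset.mem_univ i)
      have : 1 * ((f i).totalDegree) ≤ K * (M + 1 + ∑ i, (f i).totalDegree) :=
        Nat.mul_le_mul hK (by omega)
      omega
  set F : Fin n → MvPolynomial (Fin n) ℂ := fun i => X i ^ N + f i with hFdef
  have hF : ∀ i, IsLead (F i) (Finsupp.single i N) := by
    intro i
    rw [hFdef]
    refine isLead_add ?_ ?_
    · unfold IsLead
      rw [X_pow_eq_monomial, sub_self]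
      exact Submodule.zero_mem _
    · rw [Finsupp.degree_single]
      exact mem_W_of_totalDegree (hNf i)
  have hTF : ∀ i, TT d (F i) = C (d i) * F i := by
    intro i
    rw [hFdef]
    simp only
    rw [map_add, map_pow, TT_X, hTf, mul_pow, ← map_pow, hNd]
    ring
  have hXN : ∀ i : Fin n, (X i ^ N : MvPolynomial (Fin n) ℂ) ∈ m ^ (M + 1) := by
    intro i
    have h1 : (X i : MvPolynomial (Fin n) ℂ) ∈ m := Ideal.subset_span ⟨i, rfl⟩
    exact Ideal.pow_le_pow_right hNM (Ideal.pow_mem_pow h1 N)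
  have hle1 : JJ f ≤ JJ F ⊔ m ^ (M + 1) := by
    rw [JJ, Ideal.span_le]
    rintro _ ⟨i, rfl⟩
    have h : f i = F i - X i ^ N := by rw [hFdef]; ring
    change f i ∈ JJ F ⊔ m ^ (M + 1)
    rw [h]
    exact Ideal.sub_mem _ (Ideal.mem_sup_left (Ideal.subset_span ⟨i, rfl⟩))
      (Ideal.mem_sup_right (hXN i))
  have hle2 : JJ F ≤ JJ f ⊔ m ^ (M + 1) := by
    rw [JJ, Ideal.span_le]
    rintro _ ⟨i, rfl⟩
    have h : F i = f i + X i ^ N := by rw [hFdef]; ring
    change F i ∈ JJ f ⊔ m ^ (M + 1)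
    rw [h]
    exact Ideal.add_mem _ (Ideal.mem_sup_left (Ideal.subset_span ⟨i, rfl⟩))
      (Ideal.mem_sup_right (hXN i))
  have hm' : m ^ M ≤ JJ F ⊔ m ^ (M + 1) :=
    hm.trans (sup_le hle1 le_sup_right)
  have hmm : m ^ (M + 1) ≤ m ^ M := Ideal.pow_le_pow_right (by omega)
  have hq : JJ f ⊔ m ^ M = JJ F ⊔ m ^ M := by
    apply le_antisymm
    · exact sup_le (hle1.trans (sup_le_sup_left hmm _)) le_sup_right
    · exact sup_le (hle2.trans (sup_le_sup_left hmm _)) le_sup_right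
  obtain ⟨u, hu1, hu2⟩ := exists_idem F M hm'
  -- generalise the ideal
  have main : ∀ (q : Ideal (MvPolynomial (Fin n) ℂ)) (_ : q = JJ F ⊔ m ^ M)
      (L : (MvPolynomial (Fin n) ℂ ⧸ q) →ₗ[ℂ] (MvPolynomial (Fin n) ℂ ⧸ q))
      (_ : ∀ p, L (Ideal.Quotient.mk _ p) = Ideal.Quotient.mk _ (TT d p)),
      LinearMap.trace ℂ _ L = Module.finrank ℂ (MvPolynomial (Fin n) ℂ ⧸ (q ⊔ II d)) := by
    intro q hq L hL
    subst hq
    have hfin : Module.Finite ℂ (MvPolynomial (Fin n) ℂ ⧸ JJ F) :=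
      phamFinite N F hF (by omega)
    have hfinq : ∀ (I : Ideal (MvPolynomial (Fin n) ℂ)), JJ F ≤ I →
        Module.Finite ℂ (MvPolynomial (Fin n) ℂ ⧸ I) := by
      intro I hI
      refine Module.Finite.of_surjective (Ideal.Quotient.factorₐ ℂ hI).toLinearMap ?_
      intro b
      obtain ⟨p, rfl⟩ := Ideal.Quotient.mk_surjective b
      exact ⟨Ideal.Quotient.mk _ p, rfl⟩
    have hle : JJ F ≤ JJ F ⊔ m ^ M := le_sup_left
    have hle3 : JJ F ⊔ II d ≤ (JJ F ⊔ m ^ M) ⊔ II d := sup_le_sup_right le_sup_left _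
    have := hfinq (JJ F ⊔ m ^ M) hle
    have := hfinq (JJ F ⊔ II d) le_sup_left
    have := hfinq ((JJ F ⊔ m ^ M) ⊔ II d) (le_sup_left.trans le_sup_left)
    set T : (MvPolynomial (Fin n) ℂ ⧸ JJ F) →ₐ[ℂ] (MvPolynomial (Fin n) ℂ ⧸ JJ F) :=
      Ideal.quotientMapₐ _ (TT d) (JJ_le_comap d _ hTF) with hT
    have hTmk : ∀ p, T (Ideal.Quotient.mk _ p) = Ideal.Quotient.mk _ (TT d p) := fun p => rfl
    have h1 : LinearMap.trace ℂ _ L = LinearMap.trace ℂ _
        (LinearMap.mulLeft ℂ (Ideal.Quotient.mk (JJ F) u) ∘ₗ T.toLinearMap) := by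
      refine key2 T.toLinearMap (Ideal.Quotient.factorₐ ℂ hle) ?_ L ?_ _ ?_ ?_
      · intro b
        obtain ⟨p, rfl⟩ := Ideal.Quotient.mk_surjective b
        exact ⟨Ideal.Quotient.mk _ p, rfl⟩
      · intro a
        obtain ⟨p, rfl⟩ := Ideal.Quotient.mk_surjective a
        change L (Ideal.Quotient.mk _ p) = _
        rw [hL, AlgHom.toLinearMap_apply, hTmk]
        rfl
      · intro b hb
        obtain ⟨p, rfl⟩ := Ideal.Quotient.mk_surjective b
        change Ideal.Quotient.mk (JJ F ⊔ m ^ M) p = 0 at hb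
        rw [Ideal.Quotient.eq_zero_iff_mem, Submodule.mem_sup] at hb
        obtain ⟨y, hy, z, hz, rfl⟩ := hb
        rw [← map_mul, Ideal.Quotient.eq_zero_iff_mem, mul_add]
        exact Ideal.add_mem _ (Ideal.mul_mem_left _ _ hy) (hu2 z hz)
      · change Ideal.Quotient.mk (JJ F ⊔ m ^ M) u = 1
        rw [← map_one (Ideal.Quotient.mk (JJ F ⊔ m ^ M)), Ideal.Quotient.eq]
        exact hu1
    have h2 := trace_main d N F hF hN2 hTF u
      (LinearMap.mulLeft ℂ (Ideal.Quotient.mk (JJ F) u) ∘ₗ T.toLinearMap) (by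
        intro p
        rw [LinearMap.comp_apply, LinearMap.mulLeft_apply, AlgHom.toLinearMap_apply, hTmk, map_mul])
    have h3 : LinearMap.trace ℂ (MvPolynomial (Fin n) ℂ ⧸ ((JJ F ⊔ m ^ M) ⊔ II d)) LinearMap.id
        = LinearMap.trace ℂ _
        (LinearMap.mulLeft ℂ (Ideal.Quotient.mk (JJ F ⊔ II d) u) ∘ₗ LinearMap.id) := by
      refine key2 LinearMap.id (Ideal.Quotient.factorₐ ℂ hle3) ?_ LinearMap.id ?_ _ ?_ ?_
      · intro b
        obtain ⟨p, rfl⟩ := Ideal.Quotient.mk_surjective b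
        exact ⟨Ideal.Quotient.mk _ p, rfl⟩
      · intro a
        rfl
      · intro b hb
        obtain ⟨p, rfl⟩ := Ideal.Quotient.mk_surjective b
        change Ideal.Quotient.mk ((JJ F ⊔ m ^ M) ⊔ II d) p = 0 at hb
        rw [Ideal.Quotient.eq_zero_iff_mem, Submodule.mem_sup] at hb
        obtain ⟨y, hy, z, hz, rfl⟩ := hb
        rw [Submodule.mem_sup] at hy
        obtain ⟨x, hx, y, hy, rfl⟩ := hy
        rw [← map_mul, Ideal.Quotient.eq_zero_iff_mem, mul_add, mul_add]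
        exact Ideal.add_mem _ (Ideal.add_mem _
          (Ideal.mul_mem_left _ _ (Ideal.mem_sup_left hx)) (Ideal.mem_sup_left (hu2 y hy)))
          (Ideal.mul_mem_left _ _ (Ideal.mem_sup_right hz))
      · change Ideal.Quotient.mk ((JJ F ⊔ m ^ M) ⊔ II d) u = 1
        rw [← map_one (Ideal.Quotient.mk ((JJ F ⊔ m ^ M) ⊔ II d)), Ideal.Quotient.eq]
        exact Ideal.mem_sup_left hu1
    rw [LinearMap.trace_id, LinearMap.comp_id] at h3
    rw [h1, h2, h3]
  exact main _ hq _ (by exact hL)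

end Local

end TH629.EqDeg
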