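import Pool.Agent.TH629.EqDeg.Key

set_option autoImplicit false

open MvPolynomial

namespace TH629.EqDeg

section Numeric

variable {n : ℕ} (d : Fin n → ℂ)

/-- the diagonal algebra endomorphism `x_i ↦ d_i x_i`. -/
noncomputable def TT : MvPolynomial (Fin n) ℂ →ₐ[ℂ] MvPolynomial (Fin n) ℂ :=
  aeval fun i => C (d i) * X i

lemma TT_X (i : Fin n) : TT d (X i) = C (d i) * X i := by
  unfold TT; rw [aeval_X]

/-- the ideal of the fixed space -/
noncomputable abbrev II : Ideal (MvPolynomial (Fin n) ℂ) :=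
  Ideal.span (Set.range fun i => C (1 - d i) * X i)

lemma TT_C (r : ℂ) : TT d (C r) = C r := by
  unfold TT; rw [aeval_C]; rfl

lemma TT_sub_mem (p : MvPolynomial (Fin n) ℂ) : TT d p - p ∈ II d := by
  have h : (Ideal.Quotient.mkₐ ℂ (II d)).comp (TT d) = Ideal.Quotient.mkₐ ℂ (II d) := by
    apply MvPolynomial.algHom_ext
    intro i
    rw [AlgHom.comp_apply, TT_X, Ideal.Quotient.mkₐ_eq_mk, Ideal.Quotient.eq]
    have : C (d i) * X i - X i = - (C (1 - d i) * X i : MvPolynomial (Fin n) ℂ) := by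
      rw [map_sub, C_1]; ring
    rw [this]
    exact (II d).neg_mem (Ideal.subset_span ⟨i, rfl⟩)
  have h2 := AlgHom.congr_fun h p
  rw [AlgHom.comp_apply, Ideal.Quotient.mkₐ_eq_mk, Ideal.Quotient.eq] at h2
  exact h2

variable (N : ℕ) (F : Fin n → MvPolynomial (Fin n) ℂ)
  (hTF : ∀ i, TT d (F i) = C (d i) * F i)

include hTF in
lemma TT_Fs (s : ℂ) (i : Fin n) : TT d (Fs d F s i) = C (d i) * Fs d F s i := by
  unfold Fs
  rw [map_add, hTF, map_mul, TT_C, TT_X]
  ring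

lemma JJ_le_comap (F' : Fin n → MvPolynomial (Fin n) ℂ) (h : ∀ i, TT d (F' i) = C (d i) * F' i) :
    JJ F' ≤ Ideal.comap (TT d) (JJ F') := by
  rw [JJ, Ideal.span_le]
  rintro _ ⟨i, rfl⟩
  change TT d (F' i) ∈ JJ F'
  rw [h]
  exact Ideal.mul_mem_left _ _ (Ideal.subset_span ⟨i, rfl⟩)

lemma JJ_Fs_sup (s : ℂ) : JJ (Fs d F s) ⊔ II d = JJ F ⊔ II d := by
  apply le_antisymm
  · refine sup_le ?_ le_sup_right
    rw [JJ, Ideal.span_le]
    rintro _ ⟨i, rfl⟩
    have h : Fs d F s i = F i + C s * (C (1 - d i) * X i) := by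
      unfold Fs; rw [map_mul]; ring
    change Fs d F s i ∈ JJ F ⊔ II d
    rw [h]
    refine Ideal.add_mem _ (Ideal.mem_sup_left (Ideal.subset_span ⟨i, rfl⟩))
      (Ideal.mem_sup_right (Ideal.mul_mem_left _ _ (Ideal.subset_span ⟨i, rfl⟩)))
  · refine sup_le ?_ le_sup_right
    rw [JJ, Ideal.span_le]
    rintro _ ⟨i, rfl⟩
    have h : F i = Fs d F s i - C s * (C (1 - d i) * X i) := by
      unfold Fs; rw [map_mul]; ring
    change F i ∈ JJ (Fs d F s) ⊔ II d
    rw [h]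
    refine Ideal.sub_mem _ (Ideal.mem_sup_left (Ideal.subset_span ⟨i, rfl⟩))
      (Ideal.mem_sup_right (Ideal.mul_mem_left _ _ (Ideal.subset_span ⟨i, rfl⟩)))

include hTF in
lemma exists_matrix : ∃ Cm : Matrix (Fin n) (Fin n) (MvPolynomial (Fin n) ℂ),
    ∀ (s : ℂ) (i : Fin n),
      (((C s : MvPolynomial (Fin n) ℂ) • (1 : Matrix (Fin n) (Fin n) (MvPolynomial (Fin n) ℂ)) + Cm).mulVec
        (fun j => C (1 - d j) * X j)) i ∈ JJ (Fs d F s) := by
  classical
  have h1 : ∀ i, d i ≠ 1 → ∃ c : Fin n → MvPolynomial (Fin n) ℂ,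
      ∑ j, c j * (C (1 - d j) * X j) = F i := by
    intro i hi
    have h2 := TT_sub_mem d (F i)
    rw [hTF] at h2
    have h3 : C (d i) * F i - F i = C (d i - 1) * F i := by
      rw [map_sub, C_1]; ring
    rw [h3] at h2
    have h4 : F i ∈ II d := by
      have h5 := (II d).mul_mem_left (C (d i - 1)⁻¹) h2
      rwa [← mul_assoc, ← map_mul, inv_mul_cancel₀ (sub_ne_zero.mpr hi), C_1, one_mul] at h5
    rwa [II, Ideal.mem_span_range_iff_exists_fun] at h4
  choose c hc using h1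
  refine ⟨Matrix.of fun i j => if h : d i ≠ 1 then c i h j else 0, ?_⟩
  intro s i
  rw [Matrix.add_mulVec, Pi.add_apply, Matrix.smul_mulVec, Matrix.one_mulVec, Pi.smul_apply,
    smul_eq_mul]
  by_cases h : d i = 1
  · have h6 : (Matrix.of fun i j => if h : d i ≠ 1 then c i h j else
        (0 : MvPolynomial (Fin n) ℂ)).mulVec (fun j => C (1 - d j) * X j) i = 0 := by
      rw [Matrix.mulVec, dotProduct]
      refine Finset.sum_eq_zero fun j _ => ?_
      rw [Matrix.of_apply, dif_neg (by simpa using h), zero_mul]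
    rw [h6, h]
    simp
  · have h6 : (Matrix.of fun i j => if h : d i ≠ 1 then c i h j else
        (0 : MvPolynomial (Fin n) ℂ)).mulVec (fun j => C (1 - d j) * X j) i = F i := by
      rw [Matrix.mulVec, dotProduct, ← hc i h]
      refine Finset.sum_congr rfl fun j _ => ?_
      rw [Matrix.of_apply, dif_pos h]
    rw [h6]
    have h7 : C s * (C (1 - d i) * X i) + F i = Fs d F s i := by
      unfold Fs; rw [map_mul]; ring
    rw [h7]
    exact Ideal.subset_span ⟨i, rfl⟩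

variable (hF : ∀ i, IsLead (F i) (Finsupp.single i N)) (hN : 2 ≤ N)

include hF hN in
/-- for all but finitely many parameters the trace localises on the fixed part -/
theorem trace_eq_of_generic [Module.Finite ℂ (MvPolynomial (Fin n) ℂ ⧸ (JJ F ⊔ II d))]
    (hTF : ∀ i, TT d (F i) = C (d i) * F i) (u : MvPolynomial (Fin n) ℂ) :
    ∃ S : Set ℂ, S.Finite ∧ ∀ s ∉ S,
      ∀ L : (MvPolynomial (Fin n) ℂ ⧸ JJ (Fs d F s)) →ₗ[ℂ] (MvPolynomial (Fin n) ℂ ⧸ JJ (Fs d F s)),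
      (∀ p, L (Ideal.Quotient.mk _ p) = Ideal.Quotient.mk _ (u * TT d p)) →
      LinearMap.trace ℂ _ L = LinearMap.trace ℂ (MvPolynomial (Fin n) ℂ ⧸ (JJ F ⊔ II d))
        (LinearMap.mulLeft ℂ (Ideal.Quotient.mk _ u)) := by
  classical
  obtain ⟨Cm, hCm⟩ := exists_matrix d F hTF
  set B := MvPolynomial (Fin n) ℂ ⧸ (JJ F ⊔ II d) with hB
  set Cb : Matrix (Fin n) (Fin n) B := Cm.map (Ideal.Quotient.mk (JJ F ⊔ II d)) with hCb
  refine ⟨spectrum ℂ (-Cb), finite_spectrum_of_finite _, ?_⟩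
  intro s hs L hL
  have hfin : Module.Finite ℂ (MvPolynomial (Fin n) ℂ ⧸ JJ (Fs d F s)) :=
    phamFinite N _ (isLead_Fs d N F hF hN s) (by omega)
  set Δ : MvPolynomial (Fin n) ℂ :=
    ((C s : MvPolynomial (Fin n) ℂ) • (1 : Matrix (Fin n) (Fin n) (MvPolynomial (Fin n) ℂ)) + Cm).det with hΔ
  -- Δ kills the fixed ideal
  have hkill : ∀ p ∈ II d, Δ * p ∈ JJ (Fs d F s) := by
    intro p hp
    rw [II, Ideal.mem_span_range_iff_exists_fun] at hp
    obtain ⟨q, rfl⟩ := hp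
    rw [Finset.mul_sum]
    refine Ideal.sum_mem _ fun j _ => ?_
    have h1 : Δ * (q j * (C (1 - d j) * X j)) = q j * (Δ * (C (1 - d j) * X j)) := by ring
    rw [h1]
    refine Ideal.mul_mem_left _ _ ?_
    set z : Fin n → MvPolynomial (Fin n) ℂ := fun j => C (1 - d j) * X j with hz
    set M : Matrix (Fin n) (Fin n) (MvPolynomial (Fin n) ℂ) :=
      (C s : MvPolynomial (Fin n) ℂ) • (1 : Matrix (Fin n) (Fin n) (MvPolynomial (Fin n) ℂ)) + Cm with hM
    have h2 : Δ * (C (1 - d j) * X j) = (M.adjugate.mulVec (M.mulVec z)) j := by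
      rw [Matrix.mulVec_mulVec, Matrix.adjugate_mul, Matrix.smul_mulVec, Matrix.one_mulVec]
      rfl
    rw [h2, Matrix.mulVec, dotProduct]
    exact Ideal.sum_mem _ fun i _ => Ideal.mul_mem_left _ _ (hCm s i)
  -- the maps
  set T : (MvPolynomial (Fin n) ℂ ⧸ JJ (Fs d F s)) →ₐ[ℂ] (MvPolynomial (Fin n) ℂ ⧸ JJ (Fs d F s)) :=
    Ideal.quotientMapₐ _ (TT d) (JJ_le_comap d _ (TT_Fs d F hTF s)) with hT
  have hTmk : ∀ p, T (Ideal.Quotient.mk _ p) = Ideal.Quotient.mk _ (TT d p) := fun p => rfl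
  have hle : JJ (Fs d F s) ≤ JJ F ⊔ II d := by
    rw [← JJ_Fs_sup d F s]; exact le_sup_left
  set π : (MvPolynomial (Fin n) ℂ ⧸ JJ (Fs d F s)) →ₐ[ℂ] B := Ideal.Quotient.factorₐ ℂ hle with hπ
  have hπmk : ∀ p, π (Ideal.Quotient.mk _ p) = Ideal.Quotient.mk _ p := fun p => rfl
  have hker : ∀ b, π b = 0 → ∃ p ∈ II d, b = Ideal.Quotient.mk _ p := by
    intro b hb
    obtain ⟨p, rfl⟩ := Ideal.Quotient.mk_surjective b
    rw [hπmk, Ideal.Quotient.eq_zero_iff_mem, ← JJ_Fs_sup d F s, Submodule.mem_sup] at hb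
    obtain ⟨y, hy, z, hz, rfl⟩ := hb
    refine ⟨z, hz, ?_⟩
    rw [map_add, Ideal.Quotient.eq_zero_iff_mem.mpr hy, zero_add]
  have hLT : L = LinearMap.mulLeft ℂ (Ideal.Quotient.mk _ u) ∘ₗ T.toLinearMap := by
    refine LinearMap.ext fun b => ?_
    obtain ⟨p, rfl⟩ := Ideal.Quotient.mk_surjective b
    rw [hL, LinearMap.comp_apply, LinearMap.mulLeft_apply, AlgHom.toLinearMap_apply, hTmk, map_mul]
  rw [hLT]
  have := key T π ?_ ?_ ?_ (Ideal.Quotient.mk _ Δ) ?_ ?_ (Ideal.Quotient.mk _ u)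
  · rw [this, hπmk]
  · intro b
    obtain ⟨p, rfl⟩ := Ideal.Quotient.mk_surjective b
    exact ⟨Ideal.Quotient.mk _ p, rfl⟩
  · intro a
    obtain ⟨p, rfl⟩ := Ideal.Quotient.mk_surjective a
    rw [hTmk, hπmk, hπmk, Ideal.Quotient.eq]
    exact Ideal.mem_sup_right (TT_sub_mem d p)
  · intro b hb
    obtain ⟨p, hp, rfl⟩ := hker b hb
    rw [II, Ideal.mem_span_range_iff_exists_fun] at hp
    obtain ⟨q, rfl⟩ := hp
    have h1 : ∀ j, LinearMap.trace ℂ _ (LinearMap.mulLeft ℂ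
        (Ideal.Quotient.mk (JJ (Fs d F s)) (q j * (C (1 - d j) * X j))) ∘ₗ T.toLinearMap) = 0 := by
      intro j
      set x : MvPolynomial (Fin n) ℂ ⧸ JJ (Fs d F s) := Ideal.Quotient.mk _ (X j) with hx
      set b : MvPolynomial (Fin n) ℂ ⧸ JJ (Fs d F s) := Ideal.Quotient.mk _ (q j) with hb
      have h2 : LinearMap.trace ℂ _ ((LinearMap.mulLeft ℂ b ∘ₗ T.toLinearMap) ∘ₗ
          LinearMap.mulLeft ℂ x) = LinearMap.trace ℂ _ (LinearMap.mulLeft ℂ x ∘ₗ
          (LinearMap.mulLeft ℂ b ∘ₗ T.toLinearMap)) := LinearMap.trace_comp_comm' _ _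
      have h3 : (LinearMap.mulLeft ℂ b ∘ₗ T.toLinearMap) ∘ₗ LinearMap.mulLeft ℂ x
          = d j • (LinearMap.mulLeft ℂ x ∘ₗ (LinearMap.mulLeft ℂ b ∘ₗ T.toLinearMap)) := by
        refine LinearMap.ext fun a => ?_
        simp only [LinearMap.comp_apply, LinearMap.mulLeft_apply, AlgHom.toLinearMap_apply,
          LinearMap.smul_apply]
        rw [map_mul]
        have h4 : T x = d j • x := by
          rw [hx, hTmk, TT_X, ← smul_eq_C_mul]
          rfl
        rw [h4, smul_mul_assoc, mul_smul_comm]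
        congr 1
        ring
      rw [h3, map_smul] at h2
      have h5 : LinearMap.mulLeft ℂ (Ideal.Quotient.mk (JJ (Fs d F s))
          (q j * (C (1 - d j) * X j))) ∘ₗ T.toLinearMap
          = (1 - d j) • (LinearMap.mulLeft ℂ x ∘ₗ (LinearMap.mulLeft ℂ b ∘ₗ T.toLinearMap)) := by
        refine LinearMap.ext fun a => ?_
        simp only [LinearMap.comp_apply, LinearMap.mulLeft_apply, AlgHom.toLinearMap_apply,
          LinearMap.smul_apply]
        have h6 : Ideal.Quotient.mk (JJ (Fs d F s)) (q j * (C (1 - d j) * X j))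
            = (1 - d j) • (b * x) := by
          rw [map_mul, ← smul_eq_C_mul, ← hb, ← mul_smul_comm]
          rfl
        rw [h6, smul_mul_assoc]
        congr 1
        ring
      rw [h5, map_smul, sub_smul, one_smul, h2, sub_self]
    have h2 : LinearMap.mulLeft ℂ (Ideal.Quotient.mk (JJ (Fs d F s))
        (∑ i, q i * (C (1 - d i) * X i))) ∘ₗ T.toLinearMap
        = ∑ i, LinearMap.mulLeft ℂ (Ideal.Quotient.mk (JJ (Fs d F s))
          (q i * (C (1 - d i) * X i))) ∘ₗ T.toLinearMap := by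
      refine LinearMap.ext fun a => ?_
      simp only [LinearMap.comp_apply, LinearMap.mulLeft_apply, AlgHom.toLinearMap_apply,
        LinearMap.sum_apply, map_sum, Finset.sum_mul]
    rw [h2, map_sum]
    exact Finset.sum_eq_zero fun j _ => h1 j
  · intro b hb
    obtain ⟨p, hp, rfl⟩ := hker b hb
    rw [← map_mul, Ideal.Quotient.eq_zero_iff_mem]
    exact hkill p hp
  · rw [hπmk, hΔ, RingHom.map_det]
    rw [spectrum.mem_iff, not_not, sub_neg_eq_add] at hs
    rw [← Matrix.isUnit_iff_isUnit_det]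
    convert hs using 1
    rw [RingHom.mapMatrix_apply, hCb]
    ext i j
    simp only [Matrix.map_apply, Matrix.add_apply, Matrix.smul_apply, smul_eq_mul, map_add,
      map_mul]
    congr 1
    rw [Matrix.algebraMap_matrix_apply, Matrix.one_apply]
    split_ifs
    · rw [map_one, mul_one]; rfl
    · rw [map_zero, mul_zero]

include hF hN in
theorem trace_main (hTF : ∀ i, TT d (F i) = C (d i) * F i) (u : MvPolynomial (Fin n) ℂ)
    (L : (MvPolynomial (Fin n) ℂ ⧸ JJ F) →ₗ[ℂ] (MvPolynomial (Fin n) ℂ ⧸ JJ F))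
    (hL : ∀ p, L (Ideal.Quotient.mk _ p) = Ideal.Quotient.mk _ (u * TT d p)) :
    LinearMap.trace ℂ _ L = LinearMap.trace ℂ (MvPolynomial (Fin n) ℂ ⧸ (JJ F ⊔ II d))
        (LinearMap.mulLeft ℂ (Ideal.Quotient.mk _ u)) := by
  classical
  have hfin : Module.Finite ℂ (MvPolynomial (Fin n) ℂ ⧸ JJ F) :=
    phamFinite N F hF (by omega)
  have hfin2 : Module.Finite ℂ (MvPolynomial (Fin n) ℂ ⧸ (JJ F ⊔ II d)) := by
    have : JJ F ≤ JJ F ⊔ II d := le_sup_left
    refine Module.Finite.of_surjective (Ideal.Quotient.factorₐ ℂ this).toLinearMap ?_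
    intro b
    obtain ⟨p, rfl⟩ := Ideal.Quotient.mk_surjective b
    exact ⟨Ideal.Quotient.mk _ p, rfl⟩
  obtain ⟨S, hS, hgen⟩ := trace_eq_of_generic d N F hF hN hTF u
  set Ls : ∀ s : ℂ, (MvPolynomial (Fin n) ℂ ⧸ JJ (Fs d F s)) →ₗ[ℂ]
      (MvPolynomial (Fin n) ℂ ⧸ JJ (Fs d F s)) := fun s =>
    LinearMap.mulLeft ℂ (Ideal.Quotient.mk _ u) ∘ₗ
      (Ideal.quotientMapₐ _ (TT d) (JJ_le_comap d _ (TT_Fs d F hTF s))).toLinearMap with hLs
  have hLsmk : ∀ s p, Ls s (Ideal.Quotient.mk _ p) = Ideal.Quotient.mk _ (u * TT d p) := by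
    intro s p
    rw [map_mul]
    rfl
  obtain ⟨P, hP⟩ := trace_poly d N F hF hN (fun p => u * TT d p) Ls hLsmk
  set c := LinearMap.trace ℂ (MvPolynomial (Fin n) ℂ ⧸ (JJ F ⊔ II d))
        (LinearMap.mulLeft ℂ (Ideal.Quotient.mk _ u)) with hc
  have h1 : P = Polynomial.C c := by
    apply Polynomial.eq_of_infinite_eval_eq
    refine Set.Infinite.mono ?_ (hS.infinite_compl)
    intro s hs
    change P.eval s = (Polynomial.C c).eval s
    rw [← hP, Polynomial.eval_C]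
    exact hgen s hs (Ls s) (hLsmk s)
  have h2 := hP 0
  rw [h1, Polynomial.eval_C] at h2
  rw [← h2]
  have h3 : Fs d F 0 = F := by
    funext i
    unfold Fs
    simp
  have h4 : ∀ (F' : Fin n → MvPolynomial (Fin n) ℂ) (_ : F' = F)
      (L' : (MvPolynomial (Fin n) ℂ ⧸ JJ F') →ₗ[ℂ] (MvPolynomial (Fin n) ℂ ⧸ JJ F'))
      (_ : ∀ p, L' (Ideal.Quotient.mk _ p) = Ideal.Quotient.mk _ (u * TT d p)),
      LinearMap.trace ℂ _ L = LinearMap.trace ℂ _ L' := by
    intro F' hF' L' hL'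
    subst hF'
    have : L = L' := by
      refine LinearMap.ext fun b => ?_
      obtain ⟨p, rfl⟩ := Ideal.Quotient.mk_surjective b
      rw [hL, hL']
    rw [this]
  exact h4 _ h3 (Ls 0) (hLsmk 0)

end Numeric

end TH629.EqDeg
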