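import Mathlib

set_option autoImplicit false

open MvPolynomial

namespace TH629.EqDeg

section Pham

variable {n : ℕ} {k : Type*} [CommRing k]

/-- polynomials of total degree `< d`. -/
noncomputable def W (n : ℕ) (k : Type*) [CommRing k] (d : ℕ) : Submodule k (MvPolynomial (Fin n) k) :=
  restrictSupport k {e | e.degree < d}

lemma mem_W {d : ℕ} {p : MvPolynomial (Fin n) k} :
    p ∈ W n k d ↔ ∀ e, p.coeff e ≠ 0 → e.degree < d := by
  rw [W, mem_restrictSupport_iff]
  constructor
  · intro h e he
    exact h (by simpa using he)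
  · intro h e he
    exact h e (by simpa using he)

lemma W_mono {d d' : ℕ} (h : d ≤ d') : W n k d ≤ W n k d' := by
  intro p hp
  rw [mem_W] at hp ⊢
  intro e he
  exact (hp e he).trans_le h

lemma W_zero : W n k 0 = ⊥ := by
  rw [eq_bot_iff]
  intro p hp
  rw [mem_W] at hp
  rw [Submodule.mem_bot]
  ext e
  by_contra hne
  exact absurd (hp e (by simpa using hne)) (by omega)

lemma exists_mem_W (p : MvPolynomial (Fin n) k) : ∃ d, p ∈ W n k d := by
  refine ⟨p.totalDegree + 1, ?_⟩
  rw [mem_W]
  intro e he
  have := le_totalDegree (p := p) (s := e) (by simpa using he)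
  have h2 : e.degree = e.sum fun _ x => x := rfl
  omega

lemma mem_W_of_totalDegree {d : ℕ} {p : MvPolynomial (Fin n) k} (hp : p.totalDegree < d) :
    p ∈ W n k d := by
  rw [mem_W]
  intro e he
  have := le_totalDegree (p := p) (s := e) (by simpa using he)
  have h2 : e.degree = e.sum fun _ x => x := rfl
  omega

lemma W_mul {a b : ℕ} {p q : MvPolynomial (Fin n) k} (hp : p ∈ W n k a) (hq : q ∈ W n k (b + 1)) :
    p * q ∈ W n k (a + b) := by
  classical
  rw [mem_W] at *
  intro e he
  rw [coeff_mul] at he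
  obtain ⟨⟨x, y⟩, hxy, hne⟩ := Finset.exists_ne_zero_of_sum_ne_zero he
  rw [Finset.HasAntidiagonal.mem_antidiagonal] at hxy
  have hx : p.coeff x ≠ 0 := fun h => hne (by simp [h])
  have hy : q.coeff y ≠ 0 := fun h => hne (by simp [h])
  have h1 := hp x hx
  have h2 := hq y hy
  simp only at hxy
  rw [← hxy, map_add]
  omega

/-- `p` is the monomial `x^a` plus terms of lower total degree. -/
def IsLead (p : MvPolynomial (Fin n) k) (a : Fin n →₀ ℕ) : Prop :=
  p - monomial a 1 ∈ W n k a.degree

lemma monomial_mem_W (a : Fin n →₀ ℕ) (r : k) : monomial a r ∈ W n k (a.degree + 1) := by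
  classical
  rw [mem_W]
  intro e he
  rw [coeff_monomial] at he
  split_ifs at he with h
  · rw [← h]; omega
  · exact absurd rfl he

lemma IsLead.mul {p q : MvPolynomial (Fin n) k} {a b : Fin n →₀ ℕ} (hp : IsLead p a)
    (hq : IsLead q b) : IsLead (p * q) (a + b) := by
  unfold IsLead at *
  have h : p * q - monomial (a + b) 1 =
      (p - monomial a 1) * (q - monomial b 1) + (p - monomial a 1) * monomial b 1
        + (q - monomial b 1) * monomial a 1 := by
    have : (monomial (a + b) (1 : k)) = monomial a 1 * monomial b 1 := by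
      rw [monomial_mul, one_mul]
    rw [this]; ring
  rw [h, map_add]
  refine Submodule.add_mem _ (Submodule.add_mem _ ?_ ?_) ?_
  · exact W_mul hp (W_mono (by omega) hq)
  · exact W_mul hp (monomial_mem_W b 1)
  · have := W_mul hq (monomial_mem_W (k := k) a 1)
    rwa [add_comm] at this

lemma IsLead.one : IsLead (1 : MvPolynomial (Fin n) k) 0 := by
  unfold IsLead
  have : (monomial (0 : Fin n →₀ ℕ) (1 : k)) = 1 := rfl
  rw [this, sub_self]
  exact Submodule.zero_mem _

lemma IsLead.pow {p : MvPolynomial (Fin n) k} {a : Fin n →₀ ℕ} (hp : IsLead p a) (m : ℕ) :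
    IsLead (p ^ m) (m • a) := by
  induction m with
  | zero => simpa using IsLead.one
  | succ m ih =>
    rw [pow_succ, succ_nsmul]
    exact ih.mul hp

lemma IsLead.prod {ι : Type*} (s : Finset ι) (p : ι → MvPolynomial (Fin n) k)
    (a : ι → (Fin n →₀ ℕ)) (h : ∀ i ∈ s, IsLead (p i) (a i)) :
    IsLead (∏ i ∈ s, p i) (∑ i ∈ s, a i) := by
  classical
  induction s using Finset.induction_on with
  | empty => simpa using IsLead.one
  | insert i s hi ih =>
    rw [Finset.prod_insert hi, Finset.sum_insert hi]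
    exact (h i (Finset.mem_insert_self _ _)).mul
      (ih fun j hj => h j (Finset.mem_insert_of_mem hj))

variable (N : ℕ) (F : Fin n → MvPolynomial (Fin n) k)

/-- the modified monomials -/
noncomputable def pp (c : Fin n →₀ ℕ) : MvPolynomial (Fin n) k :=
  ∏ i, (F i ^ (c i / N) * X i ^ (c i % N))

variable (hF : ∀ i, IsLead (F i) (Finsupp.single i N))

include hF in
lemma isLead_pp (c : Fin n →₀ ℕ) : IsLead (pp N F c) c := by
  have h : c = ∑ i, ((c i / N) • Finsupp.single i N + (c i % N) • Finsupp.single i 1) := by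
    have : ∀ i, ((c i / N) • Finsupp.single i N + (c i % N) • Finsupp.single i 1)
        = Finsupp.single i (c i) := by
      intro i
      rw [Finsupp.smul_single, Finsupp.smul_single, ← Finsupp.single_add]
      congr 1
      simp only [smul_eq_mul, mul_one]
      rw [mul_comm]
      exact Nat.div_add_mod _ _
    simp only [this]
    exact (Finsupp.univ_sum_single c).symm
  unfold pp
  have h2 := IsLead.prod Finset.univ (fun i => F i ^ (c i / N) * X i ^ (c i % N))
    (fun i => (c i / N) • Finsupp.single i N + (c i % N) • Finsupp.single i 1) (fun i _ => by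
      refine ((hF i).pow _).mul (IsLead.pow ?_ _)
      unfold IsLead
      simp [X])
  rw [← h] at h2
  exact h2

/-- The linear map sending `x^c` to `pp c`. -/
noncomputable def Psi : MvPolynomial (Fin n) k →ₗ[k] MvPolynomial (Fin n) k :=
  (basisMonomials (Fin n) k).constr k (pp N F)

lemma Psi_monomial (c : Fin n →₀ ℕ) : Psi N F (monomial c 1) = pp N F c := by
  have := (basisMonomials (Fin n) k).constr_basis k (pp N F) c
  rwa [coe_basisMonomials] at this

include hF in
lemma Psi_sub_mem (d : ℕ) (p : MvPolynomial (Fin n) k) (hp : p ∈ W n k (d + 1)) :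
    Psi N F p - p ∈ W n k d := by
  have key : ∀ c ∈ p.support, Psi N F (monomial c (p.coeff c)) - monomial c (p.coeff c)
      ∈ W n k d := by
    intro c hc
    rw [mem_W] at hp
    have hd := hp c (by simpa using hc)
    have h1 : monomial c (p.coeff c) = p.coeff c • monomial c (1 : k) := by
      rw [smul_monomial, smul_eq_mul, mul_one]
    rw [h1, map_smul, ← smul_sub, Psi_monomial]
    exact Submodule.smul_mem _ _ (W_mono (by omega) (isLead_pp N F hF c))
  have h2 : Psi N F p - p = ∑ c ∈ p.support,
      (Psi N F (monomial c (p.coeff c)) - monomial c (p.coeff c)) := by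
    rw [Finset.sum_sub_distrib, ← map_sum, ← as_sum]
  rw [h2]
  exact Submodule.sum_mem _ key

include hF in
lemma Psi_injective : Function.Injective (Psi N F) := by
  rw [injective_iff_map_eq_zero]
  intro p hp
  obtain ⟨d, hd⟩ := exists_mem_W p
  induction d with
  | zero => rwa [W_zero, Submodule.mem_bot] at hd
  | succ d ih =>
    apply ih
    have := Psi_sub_mem N F hF d p hd
    rw [hp, zero_sub] at this
    simpa using this

include hF in
lemma Psi_surjective : Function.Surjective (Psi N F) := by
  have : ∀ d, ∀ p ∈ W n k d, ∃ q, Psi N F q = p := by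
    intro d
    induction d with
    | zero =>
      intro p hp
      rw [W_zero, Submodule.mem_bot] at hp
      exact ⟨0, by rw [hp, map_zero]⟩
    | succ d ih =>
      intro p hp
      obtain ⟨q, hq⟩ := ih _ (Psi_sub_mem N F hF d p hp)
      exact ⟨p - q, by rw [map_sub, hq]; ring⟩
  intro p
  obtain ⟨d, hd⟩ := exists_mem_W p
  exact this d p hd

lemma mul_pp (hN : 0 < N) (i : Fin n) (c : Fin n →₀ ℕ) :
    F i * pp N F c = pp N F (c + Finsupp.single i N) := by
  classical
  unfold pp
  rw [← Finset.mul_prod_erase _ _ (Finset.mem_univ i),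
    ← Finset.mul_prod_erase Finset.univ
      (fun j => F j ^ ((c + Finsupp.single i N) j / N) * X j ^ ((c + Finsupp.single i N) j % N))
      (Finset.mem_univ i)]
  have h1 : (c + Finsupp.single i N) i = c i + N := by simp
  have h2 : ∀ j ∈ Finset.univ.erase i,
      F j ^ ((c + Finsupp.single i N) j / N) * X j ^ ((c + Finsupp.single i N) j % N)
      = F j ^ (c j / N) * X j ^ (c j % N) := by
    intro j hj
    have hji : j ≠ i := Finset.ne_of_mem_erase hj
    have : (c + Finsupp.single i N) j = c j := by
      simp [Ne.symm hji]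
    rw [this]
  rw [Finset.prod_congr rfl h2, h1, Nat.add_div_right _ hN, Nat.add_mod_right, pow_succ]
  ring

lemma mul_Psi (hN : 0 < N) (i : Fin n) (w : MvPolynomial (Fin n) k) :
    F i * Psi N F w = Psi N F (monomial (Finsupp.single i N) 1 * w) := by
  classical
  have h : ∀ c ∈ w.support, F i * Psi N F (monomial c (w.coeff c))
      = Psi N F (monomial (Finsupp.single i N) 1 * monomial c (w.coeff c)) := by
    intro c _
    have h1 : monomial c (w.coeff c) = w.coeff c • monomial c (1 : k) := by
      rw [smul_monomial, smul_eq_mul, mul_one]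
    rw [h1, map_smul, mul_smul_comm, mul_smul_comm, map_smul, Psi_monomial, mul_pp N F hN,
      monomial_mul, one_mul, Psi_monomial, add_comm]
  conv_lhs => rw [as_sum w]
  conv_rhs => rw [as_sum w]
  rw [map_sum, Finset.mul_sum, Finset.mul_sum, map_sum]
  exact Finset.sum_congr rfl h

/-- the ideal generated by the `F i` -/
noncomputable abbrev JJ : Ideal (MvPolynomial (Fin n) k) := Ideal.span (Set.range F)

include hF in
lemma mem_JJ (hN : 0 < N) {p : MvPolynomial (Fin n) k} (hp : p ∈ JJ F) :
    ∃ w : MvPolynomial (Fin n) k, Psi N F w = p ∧ ∀ c, (∀ i, c i < N) → w.coeff c = 0 := by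
  classical
  rw [JJ, Ideal.mem_span_range_iff_exists_fun] at hp
  obtain ⟨q, hq⟩ := hp
  choose w hw using fun i => Psi_surjective N F hF (q i)
  refine ⟨∑ i, monomial (Finsupp.single i N) 1 * w i, ?_, ?_⟩
  · rw [map_sum, ← hq]
    refine Finset.sum_congr rfl fun i _ => ?_
    rw [← mul_Psi N F hN, hw, mul_comm]
  · intro c hc
    rw [coeff_sum]
    refine Finset.sum_eq_zero fun i _ => ?_
    rw [coeff_monomial_mul', if_neg]
    intro h
    have := h i
    simp at this
    have := hc i
    omega

lemma pp_of_lt {c : Fin n →₀ ℕ} (hc : ∀ i, c i < N) : pp N F c = monomial c 1 := by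
  unfold pp
  have : ∀ i, F i ^ (c i / N) * X i ^ (c i % N) = (X i ^ (c i) : MvPolynomial (Fin n) k) := by
    intro i
    rw [Nat.div_eq_of_lt (hc i), Nat.mod_eq_of_lt (hc i), pow_zero, one_mul]
  rw [Finset.prod_congr rfl fun i _ => this i]
  rw [monomial_eq, C_1, one_mul, Finsupp.prod_fintype]
  intro i; rw [pow_zero]

lemma pp_mem_JJ {c : Fin n →₀ ℕ} (hN : 0 < N) (hc : ¬ ∀ i, c i < N) : pp N F c ∈ JJ F := by
  classical
  push Not at hc
  obtain ⟨i, hi⟩ := hc
  unfold pp
  rw [← Finset.mul_prod_erase _ _ (Finset.mem_univ i)]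
  refine Ideal.mul_mem_right _ _ (Ideal.mul_mem_right _ _ ?_)
  have h1 : 0 < c i / N := Nat.div_pos hi hN
  obtain ⟨m, hm⟩ := Nat.exists_eq_add_of_lt h1
  rw [hm, zero_add, pow_succ]
  exact Ideal.mul_mem_left _ _ (Ideal.subset_span ⟨i, rfl⟩)

/-- exponent vector -/
noncomputable def ev (a : Fin n → Fin N) : Fin n →₀ ℕ :=
  Finsupp.equivFunOnFinite.symm fun i => (a i : ℕ)

lemma ev_apply (a : Fin n → Fin N) (i : Fin n) : ev N a i = a i := rfl

lemma ev_lt (a : Fin n → Fin N) (i : Fin n) : ev N a i < N := (a i).2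

lemma ev_injective : Function.Injective (ev N : (Fin n → Fin N) → _) := by
  intro a b h
  funext i
  have := DFunLike.congr_fun h i
  rw [ev_apply, ev_apply] at this
  exact Fin.ext this

lemma exists_ev {c : Fin n →₀ ℕ} (hc : ∀ i, c i < N) : ∃ a : Fin n → Fin N, ev N a = c :=
  ⟨fun i => ⟨c i, hc i⟩, by ext i; rfl⟩

/-- The images of the small monomials in the quotient. -/
noncomputable def bv (a : Fin n → Fin N) : MvPolynomial (Fin n) k ⧸ JJ F :=
  Ideal.Quotient.mk _ (monomial (ev N a) 1)

include hF in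
lemma bv_linearIndependent (hN : 0 < N) : LinearIndependent k (bv N F) := by
  classical
  rw [Fintype.linearIndependent_iff]
  intro α h a
  have h1 : Ideal.Quotient.mk (JJ F) (∑ a, α a • monomial (ev N a) (1 : k)) = 0 := by
    rw [← h, map_sum]
    refine Finset.sum_congr rfl fun a _ => ?_
    unfold bv
    rfl
  rw [Ideal.Quotient.eq_zero_iff_mem] at h1
  obtain ⟨w, hw, hw0⟩ := mem_JJ N F hF hN h1
  have h2 : Psi N F (∑ a, α a • monomial (ev N a) (1 : k)) = ∑ a, α a • monomial (ev N a) (1 : k) := by
    rw [map_sum]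
    refine Finset.sum_congr rfl fun a _ => ?_
    rw [map_smul, Psi_monomial, pp_of_lt N F (ev_lt N a)]
  have h3 := Psi_injective N F hF (hw.trans h2.symm)
  have h4 := hw0 (ev N a) (ev_lt N a)
  rw [h3, coeff_sum] at h4
  simp only [coeff_smul, coeff_monomial, (ev_injective N).eq_iff, smul_eq_mul, mul_ite, mul_one,
    mul_zero, Finset.sum_ite_eq', Finset.mem_univ, if_true] at h4
  exact h4

include hF in
lemma bv_span (hN : 0 < N) : ⊤ ≤ Submodule.span k (Set.range (bv N F)) := by
  intro x _
  obtain ⟨p, rfl⟩ := Ideal.Quotient.mk_surjective x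
  obtain ⟨w, rfl⟩ := Psi_surjective N F hF p
  rw [as_sum w, map_sum, map_sum]
  refine Submodule.sum_mem _ fun c _ => ?_
  have h1 : monomial c (w.coeff c) = w.coeff c • monomial c (1 : k) := by
    rw [smul_monomial, smul_eq_mul, mul_one]
  rw [h1, map_smul, Psi_monomial]
  have h2 : Ideal.Quotient.mk (JJ F) (w.coeff c • pp N F c)
    = w.coeff c • Ideal.Quotient.mk (JJ F) (pp N F c) := rfl
  rw [h2]
  refine Submodule.smul_mem _ _ ?_
  by_cases hc : ∀ i, c i < N
  · rw [pp_of_lt N F hc]
    obtain ⟨a, rfl⟩ := exists_ev N hc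
    exact Submodule.subset_span ⟨a, rfl⟩
  · rw [Ideal.Quotient.eq_zero_iff_mem.mpr (pp_mem_JJ N F hN hc)]
    exact Submodule.zero_mem _

/-- The Pham basis. -/
noncomputable def phamBasis (hN : 0 < N) :
    Module.Basis (Fin n → Fin N) k (MvPolynomial (Fin n) k ⧸ JJ F) :=
  Module.Basis.mk (bv_linearIndependent N F hF hN) (bv_span N F hF hN)

lemma phamBasis_apply (hN : 0 < N) (a : Fin n → Fin N) :
    phamBasis N F hF hN a = Ideal.Quotient.mk _ (monomial (ev N a) 1) := by
  rw [phamBasis, Module.Basis.mk_apply]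
  rfl

end Pham

end TH629.EqDeg
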